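import Mathlib
import Pool.Agent.H69.M6b.Rect

set_option autoImplicit false
open Finset

/-! # Planar matchings of lists of ports

A port of a region: position `inn` after entering, position `out` after leaving, direction `th` of the
outward normal (unrolled: left side `0`, bottom `1`, right side `2`, top `3`). `TGL f δ R l` : the strands of
`R` join the ports of the list `l` (in counterclockwise order) by a noncrossing matching, the turning of a
strand is a function of the directions of its ports. Closed under: concatenation, insertion, gluing of two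
neighbouring ports, rotation. `TGL.glues`, `TGL.joinL`, `TGL.joinR` : gluing of two regions. -/

namespace Pool.Agent.H83.W

open Pool.Agent.H69.M6b (PR TD tt Tile4 Grid innS outS KS RR fwd sdP)

/-- a port -/
structure Port (D : Type*) where
  inn : D
  out : D
  th : ℤ

/-- the direction shifted by `c` -/
def Port.sh {D : Type*} (c : ℤ) (a : Port D) : Port D := ⟨a.inn, a.out, a.th + c⟩

section

variable {D : Type*} (f : D → D) (δ : D → ℤ) (R : Set D)

/-- the ports `a`, `b` (`a` before `b`) are joined -/
def Jn (a b : Port D) : Prop :=
  PR f δ R a.inn b.out (b.th - a.th - 2) ∧ PR f δ R b.inn a.out (a.th - b.th + 2)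

/-- **planar matching of a list of ports** -/
inductive TGL : List (Port D) → Prop
  | nil : TGL []
  | cons {a b : Port D} {l l' : List (Port D)} : Jn f δ R a b → TGL l → TGL l' →
      TGL (a :: (l ++ b :: l'))

end

/-- the port `a` is glued to the next port `b` -/
structure Glu {D : Type*} (a b : Port D) : Prop where
  ab : a.out = b.inn
  ba : b.out = a.inn
  th : a.th = b.th + 2

variable {D : Type*} {f : D → D} {δ : D → ℤ} {R R' : Set D} {a b c : Port D}
  {l l' x y z : List (Port D)}

lemma PR.to {s t : D} {u v : ℤ} (h : PR f δ R s t u) (e : u = v) : PR f δ R s t v := e ▸ h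

lemma Jn.mono (hR : R ⊆ R') (h : Jn f δ R a b) : Jn f δ R' a b := ⟨h.1.mono hR, h.2.mono hR⟩

lemma TGL.mono (hR : R ⊆ R') (h : TGL f δ R l) : TGL f δ R' l := by
  induction h with
  | nil => exact .nil
  | cons h1 _ _ i1 i2 => exact .cons (h1.mono hR) i1 i2

lemma TGL.append (h : TGL f δ R l) (h' : TGL f δ R l') : TGL f δ R (l ++ l') := by
  induction h with
  | nil => exact h'
  | @cons a b m m' h1 h2 _ _ i2 =>
    have := TGL.cons h1 h2 i2
    simpa only [List.cons_append, List.append_assoc] using this

/-- the partner of the first port -/
lemma TGL.cons_inv (h : TGL f δ R (a :: l)) : ∃ b l1 l2, l = l1 ++ b :: l2 ∧ Jn f δ R a b ∧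
    TGL f δ R l1 ∧ TGL f δ R l2 := by
  cases h with
  | @cons _ b l1 l2 h1 h2 h3 => exact ⟨b, l1, l2, rfl, h1, h2, h3⟩

/-- the partner of the last port -/
lemma TGL.snoc_inv (h : TGL f δ R x) : ∀ l b, x = l ++ [b] → ∃ a l1 l2, l = l1 ++ a :: l2 ∧
    Jn f δ R a b ∧ TGL f δ R l1 ∧ TGL f δ R l2 := by
  induction h with
  | nil => intro l b h; simp at h
  | @cons a b m m' h1 h2 h3 _ i2 =>
    intro l c hl
    rcases List.eq_nil_or_concat m' with e | ⟨q, d, e⟩
    · subst e
      have h4 : (a :: m) ++ [b] = l ++ [c] := by simpa using hl
      obtain ⟨e1, e2⟩ := List.append_inj' h4 rfl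
      have e3 : b = c := by simpa using e2
      subst e3
      exact ⟨a, [], m, by simpa using e1.symm, h1, .nil, h2⟩
    · have e' : m' = q ++ [d] := by simpa [List.concat_eq_append] using e
      subst e'
      have h4 : (a :: (m ++ b :: q)) ++ [d] = l ++ [c] := by simpa using hl
      obtain ⟨e1, e2⟩ := List.append_inj' h4 rfl
      have e3 : d = c := by simpa using e2
      subst e3
      obtain ⟨a', l1, l2, k1, k2, k3, k4⟩ := i2 q d rfl
      subst k1
      refine ⟨a', a :: (m ++ b :: l1), l2, ?_, k2, .cons h1 h2 k3, k4⟩
      rw [← e1]; simp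

/-- insertion of a region -/
lemma TGL.ins (h : TGL f δ R z) (h' : TGL f δ R l) : ∀ x y, z = x ++ y → TGL f δ R (x ++ l ++ y) := by
  induction h with
  | nil =>
    intro x y e
    obtain ⟨rfl, rfl⟩ := List.append_eq_nil_iff.1 e.symm
    simpa using h'
  | @cons a b m m' h1 h2 h3 i1 i2 =>
    intro x y e
    cases x with
    | nil =>
      simp only [List.nil_append] at e ⊢
      rw [← e]
      exact h'.append (.cons h1 h2 h3)
    | cons a' x' =>
      simp only [List.cons_append, List.cons.injEq] at e
      obtain ⟨rfl, e⟩ := e
      rcases List.append_eq_append_iff.1 e with ⟨q, e1, e2⟩ | ⟨q, e1, e2⟩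
      · -- x' = m ++ q
        cases q with
        | nil =>
          simp only [List.append_nil, List.nil_append] at e1 e2
          subst e1
          rw [← e2]
          have := TGL.cons h1 (h2.append h') h3
          simpa using this
        | cons b' q' =>
          simp only [List.cons_append, List.cons.injEq] at e2
          obtain ⟨rfl, e2⟩ := e2
          subst e1
          have := TGL.cons h1 h2 (i2 q' y e2)
          simpa using this
      · -- m = x' ++ q
        subst e1
        rw [e2]
        have := TGL.cons h1 (i1 x' q rfl) h3
        simpa using this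

lemma TGL.insert (h : TGL f δ R (x ++ y)) (h' : TGL f δ R l) : TGL f δ R (x ++ l ++ y) :=
  h.ins h' x y rfl

/-! ### Gluing -/

/-- **gluing of two neighbouring ports** -/
theorem TGL.glue' (h : TGL f δ R z) : ∀ x y p q, z = x ++ p :: q :: y → Glu p q → TGL f δ R (x ++ y) := by
  induction h with
  | nil => intro x y p q e; simp at e
  | @cons a b m m' h1 h2 h3 i1 i2 =>
    intro x y p q e g
    cases x with
    | nil =>
      simp only [List.nil_append, List.cons.injEq] at e ⊢
      obtain ⟨rfl, e⟩ := e
      cases m with
      | nil =>
        simp only [List.nil_append, List.cons.injEq] at e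
        obtain ⟨rfl, rfl⟩ := e
        exact h3
      | cons q' m1 =>
        simp only [List.cons_append, List.cons.injEq] at e
        obtain ⟨rfl, e⟩ := e
        obtain ⟨c, u, v, e1, k1, k2, k3⟩ := h2.cons_inv
        subst e1
        rw [← e]
        have k4 : Jn f δ R c b := by
          refine ⟨PR.to (k1.2.trans (?_ : PR f δ R q'.out b.out (b.th - a.th - 2))) ?_,
            PR.to ((?_ : PR f δ R b.inn q'.inn (a.th - b.th + 2)).trans k1.1) ?_⟩
          · rw [g.ba]; exact h1.1
          · rw [g.th]; ring
          · rw [← g.ab]; exact h1.2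
          · rw [g.th]; ring
        have := k2.append (TGL.cons k4 k3 h3)
        simpa using this
    | cons a' x' =>
      simp only [List.cons_append, List.cons.injEq] at e ⊢
      obtain ⟨rfl, e⟩ := e
      rcases List.append_eq_append_iff.1 e with ⟨r, e1, e2⟩ | ⟨r, e1, e2⟩
      · -- x' = m ++ r
        cases r with
        | nil =>
          simp only [List.append_nil, List.nil_append, List.cons.injEq] at e1 e2
          obtain ⟨rfl, e2⟩ := e2
          subst e1
          -- p = b, q first of m'
          subst e2
          obtain ⟨c, u, v, e1, k1, k2, k3⟩ := h3.cons_inv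
          subst e1
          have k4 : Jn f δ R a c := by
            refine ⟨PR.to (h1.1.trans (?_ : PR f δ R b.out c.out (c.th - q.th - 2))) ?_,
              PR.to ((?_ : PR f δ R c.inn b.inn (q.th - c.th + 2)).trans h1.2) ?_⟩
            · rw [g.ab]; exact k1.1
            · rw [g.th]; ring
            · rw [← g.ba]; exact k1.2
            · rw [g.th]; ring
          have := TGL.cons k4 (h2.append k2) k3
          simpa using this
        | cons b' r' =>
          simp only [List.cons_append, List.cons.injEq] at e2
          obtain ⟨rfl, e2⟩ := e2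
          subst e1
          have := TGL.cons h1 h2 (i2 r' y p q e2 g)
          simpa using this
      · -- m = x' ++ r
        cases r with
        | nil =>
          simp only [List.append_nil, List.nil_append, List.cons.injEq] at e1 e2
          obtain ⟨rfl, e2⟩ := e2
          subst e1 e2
          obtain ⟨c, u, v, e1, k1, k2, k3⟩ := h3.cons_inv
          subst e1
          have k4 : Jn f δ R a c := by
            refine ⟨PR.to (h1.1.trans (?_ : PR f δ R p.out c.out (c.th - q.th - 2))) ?_,
              PR.to ((?_ : PR f δ R c.inn p.inn (q.th - c.th + 2)).trans h1.2) ?_⟩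
            · rw [g.ab]; exact k1.1
            · rw [g.th]; ring
            · rw [← g.ba]; exact k1.2
            · rw [g.th]; ring
          have := TGL.cons k4 (h2.append k2) k3
          simpa using this
        | cons p' r' =>
          simp only [List.cons_append, List.cons.injEq] at e2
          obtain ⟨rfl, e2⟩ := e2
          cases r' with
          | nil =>
            simp only [List.nil_append, List.cons.injEq] at e2
            obtain ⟨rfl, rfl⟩ := e2
            -- m = x' ++ [p], q = b
            obtain ⟨c, u, v, k0, k1, k2, k3⟩ := h2.snoc_inv x' p e1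
            subst k0
            have k4 : Jn f δ R a c := by
              refine ⟨PR.to (h1.1.trans (?_ : PR f δ R q.out c.out (c.th - p.th + 2))) ?_,
                PR.to ((?_ : PR f δ R c.inn q.inn (p.th - c.th - 2)).trans h1.2) ?_⟩
              · rw [g.ba]; exact k1.2
              · rw [g.th]; ring
              · rw [← g.ab]; exact k1.1
              · rw [g.th]; ring
            have := TGL.cons k4 k2 (k3.append h3)
            simpa using this
          | cons q' r2 =>
            simp only [List.cons_append, List.cons.injEq] at e2
            obtain ⟨rfl, rfl⟩ := e2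
            have := TGL.cons h1 (i1 x' r2 p q e1 g) h3
            simpa using this

theorem TGL.glue (h : TGL f δ R (x ++ a :: b :: y)) (g : Glu a b) : TGL f δ R (x ++ y) :=
  h.glue' x y a b rfl g

/-- gluing of two neighbouring blocks -/
theorem TGL.glues : ∀ (q p x y : List (Port D)), List.Forall₂ Glu p.reverse q →
    TGL f δ R (x ++ p ++ q ++ y) → TGL f δ R (x ++ y) := by
  intro q
  induction q with
  | nil =>
    intro p x y hp h
    have : p.reverse = [] := List.forall₂_nil_right_iff.1 hp
    have : p = [] := by simpa using this
    subst this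
    simpa using h
  | cons b q ih =>
    intro p x y hp h
    rcases List.eq_nil_or_concat p with e | ⟨p', a, e⟩
    · subst e
      simp at hp
    · have e' : p = p' ++ [a] := by simpa [List.concat_eq_append] using e
      subst e'
      simp only [List.reverse_append, List.reverse_cons, List.reverse_nil, List.nil_append,
        List.singleton_append, List.forall₂_cons] at hp
      have h1 : TGL f δ R ((x ++ p') ++ a :: b :: (q ++ y)) := by simpa using h
      have h2 := h1.glue hp.1
      exact ih p' x y hp.2 (by simpa using h2)

/-- gluing of a region whose first ports are `q` -/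
theorem TGL.joinR {p q : List (Port D)} (h : TGL f δ R (x ++ p ++ y)) (h' : TGL f δ R (q ++ z))
    (g : List.Forall₂ Glu p.reverse q) : TGL f δ R (x ++ z ++ y) := by
  have h1 := h.insert h'
  have h2 : TGL f δ R (x ++ p ++ q ++ (z ++ y)) := by simpa using h1
  have := TGL.glues q p x (z ++ y) g h2
  simpa using this

/-- gluing of a region whose last ports are `q` -/
theorem TGL.joinL {p q : List (Port D)} (h : TGL f δ R (x ++ p ++ y)) (h' : TGL f δ R (z ++ q))
    (g : List.Forall₂ Glu q.reverse p) : TGL f δ R (x ++ z ++ y) := by
  have h0 : TGL f δ R (x ++ (p ++ y)) := by simpa using h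
  have h1 := h0.insert h'
  have h2 : TGL f δ R ((x ++ z) ++ q ++ p ++ y) := by simpa using h1
  exact TGL.glues p q (x ++ z) y g h2

/-! ### Rotation -/

lemma Jn.shift (k : ℤ) (h : Jn f δ R a b) : Jn f δ R (a.sh k) (b.sh k) :=
  ⟨PR.to h.1 (by unfold Port.sh; simp only; ring), PR.to h.2 (by unfold Port.sh; simp only; ring)⟩

lemma TGL.shift (k : ℤ) (h : TGL f δ R l) : TGL f δ R (l.map (Port.sh k)) := by
  induction h with
  | nil => exact .nil
  | @cons a b m m' h1 _ _ i1 i2 =>
    have := TGL.cons (h1.shift k) i1 i2
    simpa using this

/-- the last port becomes the first -/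
lemma TGL.rot1 (h : TGL f δ R (l ++ [b])) : TGL f δ R (b.sh (-4) :: l) := by
  obtain ⟨a, l1, l2, e, h1, h2, h3⟩ := h.snoc_inv l b rfl
  subst e
  refine .cons ⟨PR.to h1.2 ?_, PR.to h1.1 ?_⟩ h2 h3 <;> (unfold Port.sh; simp only; ring)

/-- the first port becomes the last -/
lemma TGL.rot1' (h : TGL f δ R (a :: l)) : TGL f δ R (l ++ [a.sh 4]) := by
  obtain ⟨b, l1, l2, e, h1, h2, h3⟩ := h.cons_inv
  subst e
  have h4 : Jn f δ R b (a.sh 4) :=
    ⟨PR.to h1.2 (by unfold Port.sh; simp only; ring), PR.to h1.1 (by unfold Port.sh; simp only; ring)⟩
  have := h2.append (TGL.cons h4 h3 .nil)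
  simpa using this

/-- rotation -/
theorem TGL.rot : ∀ (x y : List (Port D)), TGL f δ R (x ++ y) → TGL f δ R (y ++ x.map (Port.sh 4)) := by
  intro x
  induction x with
  | nil => intro y h; simpa using h
  | cons a x ih =>
    intro y h
    have h1 : TGL f δ R (x ++ (y ++ [a.sh 4])) := by
      have := TGL.rot1' (l := x ++ y) (by simpa using h)
      simpa using this
    have := ih _ h1
    simpa using this

/-- rotation backwards -/
theorem TGL.rot' (x y : List (Port D)) (h : TGL f δ R (x ++ y)) :
    TGL f δ R (y.map (Port.sh (-4)) ++ x) := by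
  have h1 := (TGL.rot x y h).shift (-4)
  have e : (x.map (Port.sh 4)).map (Port.sh (-4)) = x := by
    rw [List.map_map]
    conv_rhs => rw [← List.map_id x]
    apply List.map_congr_left
    intro a _
    simp only [Function.comp, Port.sh, id, add_neg_cancel_right]
  rw [List.map_append, e] at h1
  exact h1

end Pool.Agent.H83.W
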