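import Mathlib
import Pool.Agent.H83.W.TGL

set_option autoImplicit false
open Finset

/-! # Planarity by growth for general simply connected regions

`TG f δ R m inn out th M` : noncrossing matching `M` of the ports `k < m` (in counterclockwise order), the
turning of a strand is a function of the ports. `TGL.tg` : from lists of ports. `TD.tg` : from the regions
between two monotone boundaries. `blk` : value of the port `k` of a list of blocks. -/

namespace Pool.Agent.H83.W

open Pool.Agent.H69.M6b (PR TD tt)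

/-- **noncrossing matching of the ports of a region** -/
structure TG {D : Type*} (f : D → D) (δ : D → ℤ) (R : Set D) (m : ℕ) (inn out : ℕ → D) (th : ℕ → ℤ)
    (M : ℕ → ℕ) : Prop where
  lt : ∀ k < m, M k < m
  inv : ∀ k < m, M (M k) = k
  ne : ∀ k < m, M k ≠ k
  nc : ∀ k < m, ∀ l < m, l ≠ k → l ≠ M k → ((l < k ↔ l < M k) ↔ (M l < k ↔ M l < M k))
  path : ∀ k < m, PR f δ R (inn k) (out (M k)) (th (M k) - th k + (if k < M k then -2 else 2))

variable {D : Type*} {f : D → D} {δ : D → ℤ} {R R' : Set D} {n m : ℕ} {inn out : ℕ → D}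
  {K th : ℕ → ℤ} {M : ℕ → ℕ}

lemma TG.inj (h : TG f δ R m inn out th M) {k l : ℕ} (hk : k < m) (hl : l < m)
    (hkl : M k = M l) : k = l := by
  rw [← h.inv k hk, hkl, h.inv l hl]

lemma TG.mono (hR : R ⊆ R') (h : TG f δ R m inn out th M) : TG f δ R' m inn out th M :=
  ⟨h.lt, h.inv, h.ne, h.nc, fun k hk => (h.path k hk).mono hR⟩

/-- only the values below `m` matter -/
lemma TG.congr {inn' out' : ℕ → D} {th' : ℕ → ℤ} (h : TG f δ R m inn out th M)
    (h1 : ∀ k < m, inn k = inn' k) (h2 : ∀ k < m, out k = out' k) (h3 : ∀ k < m, th k = th' k) :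
    TG f δ R m inn' out' th' M := by
  refine ⟨h.lt, h.inv, h.ne, h.nc, fun k hk => ?_⟩
  have h4 := h.lt k hk
  rw [← h1 k hk, ← h2 _ h4, ← h3 k hk, ← h3 _ h4]
  exact h.path k hk

/-- regions between two monotone boundaries -/
theorem TD.tg (h : TD f δ R n inn out K M) :
    TG f δ R (2 * n) inn out (fun k => K k + (if k < n then 0 else 2)) M := by
  refine ⟨h.lt, h.inv, h.ne, h.nc, fun k hk => ?_⟩
  have h1 := h.path k hk
  have h2 := h.ne k hk
  convert h1 using 1
  unfold tt
  by_cases c1 : k < n <;> by_cases c2 : M k < n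
  · simp only [c1, c2, if_true]
    ring
  · have c3 : k < M k := by omega
    simp only [c1, c2, c3, if_true, if_false, iff_false, not_true_eq_false]
    ring
  · have c3 : ¬ k < M k := by omega
    simp only [c1, c2, c3, if_true, if_false, iff_true]
    ring
  · simp only [c1, c2, if_true, if_false]
    ring

/-! ### From lists -/

lemma nc_aux {n1 n2 : ℕ} {M1 M2 : ℕ → ℕ} (l1 : ∀ k < n1, M1 k < n1) (l2 : ∀ k < n2, M2 k < n2)
    (v1 : ∀ k < n1, M1 (M1 k) = k) (v2 : ∀ k < n2, M2 (M2 k) = k)
    (e1 : ∀ k < n1, M1 k ≠ k) (e2 : ∀ k < n2, M2 k ≠ k)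
    (c1 : ∀ k < n1, ∀ l < n1, l ≠ k → l ≠ M1 k → ((l < k ↔ l < M1 k) ↔ (M1 l < k ↔ M1 l < M1 k)))
    (c2 : ∀ k < n2, ∀ l < n2, l ≠ k → l ≠ M2 k → ((l < k ↔ l < M2 k) ↔ (M2 l < k ↔ M2 l < M2 k)))
    (M : ℕ → ℕ) (h0 : M 0 = n1 + 1) (h1 : ∀ k < n1, M (k + 1) = M1 k + 1) (h2 : M (n1 + 1) = 0)
    (h3 : ∀ k < n2, M (n1 + 2 + k) = n1 + 2 + M2 k) :
    (∀ k < n1 + n2 + 2, M k < n1 + n2 + 2) ∧ (∀ k < n1 + n2 + 2, M (M k) = k) ∧
    (∀ k < n1 + n2 + 2, M k ≠ k) ∧
    ∀ k < n1 + n2 + 2, ∀ l < n1 + n2 + 2, l ≠ k → l ≠ M k →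
      ((l < k ↔ l < M k) ↔ (M l < k ↔ M l < M k)) := by
  have cs : ∀ k < n1 + n2 + 2, (k = 0 ∧ M k = n1 + 1) ∨ (k = n1 + 1 ∧ M k = 0) ∨
      (∃ i < n1, k = i + 1 ∧ M k = M1 i + 1) ∨ (∃ i < n2, k = n1 + 2 + i ∧ M k = n1 + 2 + M2 i) := by
    intro k hk
    rcases Nat.eq_zero_or_pos k with c | c
    · subst c; exact Or.inl ⟨rfl, h0⟩
    rcases Nat.lt_or_ge k (n1 + 1) with d | d
    · obtain ⟨i, rfl⟩ : ∃ i, k = i + 1 := ⟨k - 1, by omega⟩
      exact Or.inr (Or.inr (Or.inl ⟨i, by omega, rfl, h1 i (by omega)⟩))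
    rcases Nat.eq_or_lt_of_le d with d | d
    · subst d; exact Or.inr (Or.inl ⟨rfl, h2⟩)
    · obtain ⟨i, rfl⟩ : ∃ i, k = n1 + 2 + i := ⟨k - (n1 + 2), by omega⟩
      exact Or.inr (Or.inr (Or.inr ⟨i, by omega, rfl, h3 i (by omega)⟩))
  refine ⟨?_, ?_, ?_, ?_⟩
  · intro k hk
    rcases cs k hk with ⟨-, h⟩ | ⟨-, h⟩ | ⟨i, hi, -, h⟩ | ⟨i, hi, -, h⟩
    · omega
    · omega
    · have := l1 i hi; omega
    · have := l2 i hi; omega
  · intro k hk
    rcases cs k hk with ⟨e, h⟩ | ⟨e, h⟩ | ⟨i, hi, e, h⟩ | ⟨i, hi, e, h⟩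
    · rw [h, h2, e]
    · rw [h, h0, e]
    · rw [h, h1 _ (l1 i hi), v1 i hi, e]
    · rw [h, h3 _ (l2 i hi), v2 i hi, e]
  · intro k hk
    rcases cs k hk with ⟨e, h⟩ | ⟨e, h⟩ | ⟨i, hi, e, h⟩ | ⟨i, hi, e, h⟩
    · omega
    · omega
    · have := e1 i hi; omega
    · have := e2 i hi; omega
  · intro k hk l hl hlk hlM
    rcases cs k hk with ⟨e, h⟩ | ⟨e, h⟩ | ⟨i, hi, e, h⟩ | ⟨i, hi, e, h⟩ <;>
      rcases cs l hl with ⟨e', h'⟩ | ⟨e', h'⟩ | ⟨i', hi', e', h'⟩ | ⟨i', hi', e', h'⟩ <;>
      rw [h, h']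
    all_goals rw [h] at hlM
    all_goals subst e e'
    all_goals first
      | (exact absurd rfl hlk)
      | (exact absurd rfl hlM)
      | skip
    · have := l1 i' hi'; omega
    · have := l2 i' hi'; omega
    · have := l1 i' hi'; omega
    · have := l2 i' hi'; omega
    · have := l1 i hi; omega
    · have := l1 i hi; omega
    · have g1 := c1 i hi i' hi' (by omega) (by omega)
      rw [Nat.add_lt_add_iff_right, Nat.add_lt_add_iff_right, Nat.add_lt_add_iff_right,
        Nat.add_lt_add_iff_right]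
      exact g1
    · have := l1 i hi
      have := l2 i' hi'
      omega
    · have := l2 i hi; omega
    · have := l2 i hi; omega
    · have := l2 i hi
      have := l1 i' hi'
      omega
    · have g1 := c2 i hi i' hi' (by omega) (by omega)
      rw [Nat.add_lt_add_iff_left, Nat.add_lt_add_iff_left, Nat.add_lt_add_iff_left,
        Nat.add_lt_add_iff_left]
      exact g1

/-- **From lists of ports to numbered ports.** -/
theorem TGL.tg {l : List (Port D)} (h : TGL f δ R l) : ∀ P : ℕ → Port D,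
    (∀ k (hk : k < l.length), P k = l[k]) →
    ∃ M, TG f δ R l.length (fun k => (P k).inn) (fun k => (P k).out) (fun k => (P k).th) M := by
  induction h with
  | nil =>
    intro P _
    exact ⟨id, fun k hk => absurd hk (Nat.not_lt_zero k), fun k hk => absurd hk (Nat.not_lt_zero k),
      fun k hk => absurd hk (Nat.not_lt_zero k), fun k hk => absurd hk (Nat.not_lt_zero k),
      fun k hk => absurd hk (Nat.not_lt_zero k)⟩
  | @cons a b u v hj h1 h2 i1 i2 =>
    intro P hP
    have hlen : (a :: (u ++ b :: v)).length = u.length + v.length + 2 := by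
      simp only [List.length_cons, List.length_append]; omega
    have p0 : P 0 = a := by
      rw [hP 0 (by rw [hlen]; omega)]; rfl
    have p1 : ∀ k (hk : k < u.length), P (k + 1) = u[k] := by
      intro k hk
      rw [hP (k + 1) (by rw [hlen]; omega)]
      simp only [List.getElem_cons_succ]
      rw [List.getElem_append_left hk]
    have p2 : P (u.length + 1) = b := by
      rw [hP (u.length + 1) (by rw [hlen]; omega)]
      simp only [List.getElem_cons_succ]
      rw [List.getElem_append_right le_rfl]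
      simp
    have p3 : ∀ k (hk : k < v.length), P (u.length + 2 + k) = v[k] := by
      intro k hk
      have e : u.length + 2 + k = (u.length + 1 + k) + 1 := by omega
      rw [hP (u.length + 2 + k) (by rw [hlen]; omega)]
      simp only [e, List.getElem_cons_succ]
      rw [List.getElem_append_right (by omega)]
      have e2 : u.length + 1 + k - u.length = k + 1 := by omega
      simp only [e2, List.getElem_cons_succ]
    obtain ⟨M1, g1⟩ := i1 (fun k => P (k + 1)) p1
    obtain ⟨M2, g2⟩ := i2 (fun k => P (u.length + 2 + k)) p3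
    set M : ℕ → ℕ := fun k => if k = 0 then u.length + 1 else if k < u.length + 1 then M1 (k - 1) + 1
      else if k = u.length + 1 then 0 else u.length + 2 + M2 (k - (u.length + 2)) with hM
    have m0 : M 0 = u.length + 1 := by rw [hM]; simp
    have m1 : ∀ k < u.length, M (k + 1) = M1 k + 1 := by
      intro k hk
      rw [hM]
      simp only
      rw [if_neg (by omega), if_pos (by omega)]
      simp
    have m2 : M (u.length + 1) = 0 := by
      rw [hM]
      dsimp only
      rw [if_neg (by omega), if_neg (by omega), if_pos rfl]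
    have m3 : ∀ k < v.length, M (u.length + 2 + k) = u.length + 2 + M2 k := by
      intro k hk
      rw [hM]
      simp only
      rw [if_neg (by omega), if_neg (by omega), if_neg (by omega)]
      congr 2
      omega
    obtain ⟨q1, q2, q3, q4⟩ := nc_aux g1.lt g2.lt g1.inv g2.inv g1.ne g2.ne g1.nc g2.nc M m0 m1 m2 m3
    rw [hlen]
    refine ⟨M, q1, q2, q3, q4, ?_⟩
    intro k hk
    rcases Nat.eq_zero_or_pos k with c | c
    · subst c
      rw [m0, p0, p2, if_pos (by omega)]
      exact PR.to hj.1 (by ring)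
    rcases Nat.lt_or_ge k (u.length + 1) with d | d
    · obtain ⟨i, rfl⟩ : ∃ i, k = i + 1 := ⟨k - 1, by omega⟩
      rw [m1 i (by omega)]
      have := g1.path i (by omega)
      convert this using 2
      by_cases c5 : i < M1 i
      · rw [if_pos c5, if_pos (by omega)]
      · rw [if_neg c5, if_neg (by omega)]
    rcases Nat.eq_or_lt_of_le d with d | d
    · subst d
      rw [m2, p0, p2, if_neg (by omega)]
      exact hj.2
    · obtain ⟨i, rfl⟩ : ∃ i, k = u.length + 2 + i := ⟨k - (u.length + 2), by omega⟩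
      rw [m3 i (by omega)]
      have := g2.path i (by omega)
      convert this using 2
      by_cases c5 : i < M2 i
      · rw [if_pos c5, if_pos (by omega)]
      · rw [if_neg c5, if_neg (by omega)]

/-! ### Blocks -/

/-- value of a list of blocks -/
def blk {α : Type*} (e : α) : List (ℕ × (ℕ → α)) → ℕ → α
  | [], _ => e
  | (n, F) :: L, k => if k < n then F k else blk e L (k - n)

/-- the list of the values -/
def flt {α : Type*} : List (ℕ × (ℕ → α)) → List α
  | [] => []
  | (n, F) :: L => (List.range n).map F ++ flt L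

/-- length -/
def bln {α : Type*} : List (ℕ × (ℕ → α)) → ℕ
  | [] => 0
  | (n, _) :: L => n + bln L

section

variable {α : Type*} {e : α} {L L' : List (ℕ × (ℕ → α))} {F : ℕ → α} {k : ℕ}

lemma blk_lt (h : k < n) : blk e ((n, F) :: L) k = F k := by unfold blk; rw [if_pos h]

lemma blk_ge (h : n ≤ k) : blk e ((n, F) :: L) k = blk e L (k - n) := by
  conv_lhs => unfold blk
  rw [if_neg (by omega)]

lemma blk_add : blk e ((n, F) :: L) (n + k) = blk e L k := by
  rw [blk_ge (by omega), Nat.add_sub_cancel_left]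

lemma length_flt (L : List (ℕ × (ℕ → α))) : (flt L).length = bln L := by
  induction L with
  | nil => rfl
  | cons p L ih =>
    obtain ⟨n, F⟩ := p
    simp only [flt, bln, List.length_append, List.length_map, List.length_range, ih]

lemma flt_append (L L' : List (ℕ × (ℕ → α))) : flt (L ++ L') = flt L ++ flt L' := by
  induction L with
  | nil => rfl
  | cons p L ih =>
    obtain ⟨n, F⟩ := p
    simp only [flt, List.cons_append, ih, List.append_assoc]

lemma getElem_flt : ∀ (L : List (ℕ × (ℕ → α))) (k : ℕ) (hk : k < (flt L).length),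
    blk e L k = (flt L)[k] := by
  intro L
  induction L with
  | nil => intro k hk; simp [flt] at hk
  | cons p L ih =>
    obtain ⟨n, F⟩ := p
    intro k hk
    unfold blk
    by_cases c : k < n
    · rw [if_pos c]
      simp only [flt]
      rw [List.getElem_append_left (by simpa using c)]
      simp
    · rw [if_neg c]
      have h1 : k - n < (flt L).length := by
        rw [length_flt] at hk ⊢
        unfold bln at hk
        omega
      rw [ih _ h1]
      simp only [flt]
      rw [List.getElem_append_right (by simpa using c)]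
      simp

end

/-- **From blocks of ports to numbered ports.** -/
theorem tg_blk {L : List (ℕ × (ℕ → Port D))} (e : Port D) (h : TGL f δ R (flt L)) :
    ∃ M, TG f δ R (bln L) (fun k => (blk e L k).inn) (fun k => (blk e L k).out)
      (fun k => (blk e L k).th) M := by
  obtain ⟨M, hM⟩ := h.tg (blk e L) (fun k hk => getElem_flt L k hk)
  rw [length_flt] at hM
  exact ⟨M, hM⟩

/-! ### The matching is determined by the paths -/

lemma PR.unique {s t t' : D} {u u' : ℤ} (h : PR f δ R s t u) (h' : PR f δ R s t' u') (ht : t ∉ R)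
    (ht' : t' ∉ R) : t = t' := by
  obtain ⟨n, h1, h2, -⟩ := h
  obtain ⟨n', h1', h2', -⟩ := h'
  rcases lt_trichotomy n n' with c | c | c
  · exact absurd (h1 ▸ h2' n c) ht
  · rw [← h1, ← h1', c]
  · exact absurd (h1' ▸ h2 n' c) ht'

/-- a path between two ports determines the matching -/
lemma TG.of_path (h : TG f δ R m inn out th M) (ho : ∀ k < m, out k ∉ R)
    (hi : ∀ k < m, ∀ l < m, out k = out l → k = l) {k l : ℕ} (hk : k < m) (hl : l < m) {u : ℤ}
    (hp : PR f δ R (inn k) (out l) u) : M k = l :=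
  hi _ (h.lt k hk) _ hl (PR.unique (h.path k hk) hp (ho _ (h.lt k hk)) (ho _ hl))

/-- `M k = l` iff `M l = k` -/
lemma TG.symm (h : TG f δ R m inn out th M) {k l : ℕ} (hk : k < m) (e : M k = l) : M l = k := by
  rw [← e, h.inv k hk]

/-- **Number of the ports of a block whose strand leaves the block.** `dd k` : the ports `k`, `k + 1` are
joined. -/
theorem TG.card_exc (h : TG f δ R m inn out th M) {p0 N : ℕ} (hp : p0 + N ≤ m) (live : Finset ℕ)
    (hl : ∀ l < m, l ∉ live → ¬ (p0 ≤ l ∧ l < p0 + N) →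
      (l + 1 < m ∧ M l = l + 1 ∧ ¬ (p0 ≤ l + 1 ∧ l + 1 < p0 + N)) ∨
      (1 ≤ l ∧ M (l - 1) = l ∧ ¬ (p0 ≤ l - 1 ∧ l - 1 < p0 + N))) :
    ((range N).filter fun c => ¬ (p0 ≤ M (p0 + c) ∧ M (p0 + c) < p0 + N)).card ≤ live.card := by
  refine Finset.card_le_card_of_injOn (fun c => M (p0 + c)) ?_ ?_
  · intro c hc
    obtain ⟨hc1, hc2⟩ := mem_filter.1 hc
    rw [mem_range] at hc1
    by_contra hn
    have hm := h.lt (p0 + c) (by omega)
    have hi := h.inv (p0 + c) (by omega)
    rcases hl _ hm hn hc2 with ⟨-, k2, k3⟩ | ⟨k1, k2, k3⟩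
    · rw [hi] at k2
      omega
    · have k4 := h.inv (M (p0 + c) - 1) (by omega)
      rw [k2, hi] at k4
      omega
  · intro c hc c' hc' e
    have hc1 := mem_range.1 (mem_filter.1 (mem_coe.1 hc)).1
    have hc2 := mem_range.1 (mem_filter.1 (mem_coe.1 hc')).1
    have := h.inj (k := p0 + c) (l := p0 + c') (by omega) (by omega) e
    omega

end Pool.Agent.H83.W
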