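import Mathlib
import Pool.Agent.H83.W.TGL

set_option autoImplicit false
open Finset

/-! # Rectangles as lists of ports

`Grid` of `H69/M6b/Rect` : tiles `(i, j)`, `i < w`, `j < h`. `pL i j`, `pR i j` : the vertical side `(i, j)` as a
left or right side of the region, `pB`, `pT` : the horizontal side as a bottom or top side. `Grid.tgl` : ports
of the rectangle: left side from top to bottom, bottom, right side from bottom to top, top from right to left.
-/

namespace Pool.Agent.H83.W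

open Pool.Agent.H69.M6b (PR TD tt Tile4 Grid innS outS KS RR fwd sdP)

section

variable {D : Type*} (vR vL hU hD : ℕ → ℕ → D)

def pL (i j : ℕ) : Port D := ⟨vR i j, vL i j, 0⟩
def pR (i j : ℕ) : Port D := ⟨vL i j, vR i j, 2⟩
def pB (i j : ℕ) : Port D := ⟨hU i j, hD i j, 1⟩
def pT (i j : ℕ) : Port D := ⟨hD i j, hU i j, 3⟩

/-- left sides of the column line `i`, rows below `h`, from top to bottom -/
def lsL (i h : ℕ) : List (Port D) := ((List.range h).map (pL vR vL i)).reverse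

/-- right sides, from bottom to top -/
def lsR (i h : ℕ) : List (Port D) := (List.range h).map (pR vR vL i)

/-- bottom sides of the row line `j`, columns below `w`, from left to right -/
def lsB (w j : ℕ) : List (Port D) := (List.range w).map (fun i => pB hU hD i j)

/-- top sides, from right to left -/
def lsT (w j : ℕ) : List (Port D) := ((List.range w).map (fun i => pT hU hD i j)).reverse

end

variable {D : Type*} {f : D → D} {δ : D → ℤ} {R R' : Set D} {vR vL hU hD : ℕ → ℕ → D} {w h : ℕ}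
  {s : ℕ → ℕ → Bool}

lemma Port.sh_sh (c c' : ℤ) (a : Port D) : (a.sh c).sh c' = a.sh (c + c') := by
  unfold Port.sh; simp only; rw [add_assoc]

lemma Port.sh_zero (a : Port D) : a.sh 0 = a := by
  unfold Port.sh; simp only [add_zero]

lemma lsL_succ (i h : ℕ) : lsL vR vL i (h + 1) = pL vR vL i h :: lsL vR vL i h := by
  unfold lsL; rw [List.range_succ]; simp

lemma lsR_succ (i h : ℕ) : lsR vR vL i (h + 1) = lsR vR vL i h ++ [pR vR vL i h] := by
  unfold lsR; rw [List.range_succ]; simp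

lemma lsB_succ (w j : ℕ) : lsB hU hD (w + 1) j = lsB hU hD w j ++ [pB hU hD w j] := by
  unfold lsB; rw [List.range_succ]; simp

lemma lsT_succ (w j : ℕ) : lsT hU hD (w + 1) j = pT hU hD w j :: lsT hU hD w j := by
  unfold lsT; rw [List.range_succ]; simp

@[simp] lemma lsL_zero (i : ℕ) : lsL vR vL i 0 = [] := rfl
@[simp] lemma lsR_zero (i : ℕ) : lsR vR vL i 0 = [] := rfl
@[simp] lemma lsB_zero (j : ℕ) : lsB hU hD 0 j = [] := rfl
@[simp] lemma lsT_zero (j : ℕ) : lsT hU hD 0 j = [] := rfl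

lemma Jn.refl_v (i j : ℕ) : Jn f δ R (pL vR vL i j) (pR vR vL i j) :=
  ⟨PR.to (.refl _) (by unfold pL pR; norm_num), PR.to (.refl _) (by unfold pL pR; norm_num)⟩

lemma Jn.refl_h (i j : ℕ) : Jn f δ R (pB hU hD i j) (pT hU hD i j) :=
  ⟨PR.to (.refl _) (by unfold pB pT; norm_num), PR.to (.refl _) (by unfold pB pT; norm_num)⟩

/-- a tile -/
lemma tgl_tile {p : Bool} {xS xW xE xN yS yW yE yN : D} (h : Tile4 f δ p xS xW xE xN yS yW yE yN)
    (m1 : xS ∈ R) (m2 : xW ∈ R) (m3 : xE ∈ R) (m4 : xN ∈ R) :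
    TGL f δ R [⟨xW, yW, 0⟩, ⟨xS, yS, 1⟩, ⟨xE, yE, 2⟩, ⟨xN, yN, 3⟩] := by
  cases p
  · obtain ⟨t1, t2, t3, t4, d1, d2, d3, d4⟩ := h.s1 rfl
    have h1 : Jn f δ R ⟨xW, yW, 0⟩ ⟨xN, yN, 3⟩ :=
      ⟨PR.to (.step m2 t1 d1) (by norm_num), PR.to (.step m4 t4 d4) (by norm_num)⟩
    have h2 : Jn f δ R ⟨xS, yS, 1⟩ ⟨xE, yE, 2⟩ :=
      ⟨PR.to (.step m1 t3 d3) (by norm_num), PR.to (.step m3 t2 d2) (by norm_num)⟩
    exact TGL.cons (l := [⟨xS, yS, 1⟩, ⟨xE, yE, 2⟩]) (l' := []) h1 (.cons (l := []) (l' := []) h2 .nil .nil) .nil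
  · obtain ⟨t1, t2, t3, t4, d1, d2, d3, d4⟩ := h.s2 rfl
    have h1 : Jn f δ R ⟨xW, yW, 0⟩ ⟨xS, yS, 1⟩ :=
      ⟨PR.to (.step m2 t1 d1) (by norm_num), PR.to (.step m1 t3 d3) (by norm_num)⟩
    have h2 : Jn f δ R ⟨xE, yE, 2⟩ ⟨xN, yN, 3⟩ :=
      ⟨PR.to (.step m3 t2 d2) (by norm_num), PR.to (.step m4 t4 d4) (by norm_num)⟩
    exact TGL.cons (l := []) (l' := [⟨xE, yE, 2⟩, ⟨xN, yN, 3⟩]) h1 .nil (.cons (l := []) (l' := []) h2 .nil .nil)

lemma Grid.tl (hG : Grid f δ w h s vR vL hU hD) (hR : RR w h vR vL hU hD ⊆ R) {i j : ℕ}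
    (hi : i < w) (hj : j < h) :
    TGL f δ R [pL vR vL i j, pB hU hD i j, pR vR vL (i + 1) j, pT hU hD i (j + 1)] := by
  refine tgl_tile (hG.tile i hi j hj) ?_ ?_ ?_ ?_
  · exact hR ⟨i, hi, j, hj, Or.inl rfl⟩
  · exact hR ⟨i, hi, j, hj, Or.inr (Or.inl rfl)⟩
  · exact hR ⟨i, hi, j, hj, Or.inr (Or.inr (Or.inl rfl))⟩
  · exact hR ⟨i, hi, j, hj, Or.inr (Or.inr (Or.inr rfl))⟩

lemma glu_v (i j : ℕ) : Glu (pR vR vL i j) (pL vR vL i j) := ⟨rfl, rfl, rfl⟩

lemma glu_h (i j : ℕ) : Glu (pT hU hD i j) (pB hU hD i j) := ⟨rfl, rfl, rfl⟩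

/-- a row -/
lemma Grid.trow (hG : Grid f δ w h s vR vL hU hD) (hR : RR w h vR vL hU hD ⊆ R) {j : ℕ} (hj : j < h) :
    ∀ n ≤ w, TGL f δ R (pL vR vL 0 j :: (lsB hU hD n j ++ pR vR vL n j :: lsT hU hD n (j + 1))) := by
  intro n
  induction n with
  | zero =>
    intro _
    exact TGL.cons (l := []) (l' := []) (Jn.refl_v _ _) .nil .nil
  | succ n ih =>
    intro hn
    have h1 := ih (by omega)
    have h2 := Grid.tl hG hR (i := n) (j := j) (by omega) hj
    have h3 : TGL f δ R (((pL vR vL 0 j :: lsB hU hD n j) ++ [pR vR vL n j]) ++ lsT hU hD n (j + 1)) := by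
      simpa using h1
    have h4 := h3.joinR (q := [pL vR vL n j])
      (z := [pB hU hD n j, pR vR vL (n + 1) j, pT hU hD n (j + 1)]) (by simpa using h2)
      (by simpa using glu_v n j)
    rw [lsB_succ, lsT_succ]
    simpa using h4

/-- **A rectangle.** -/
theorem Grid.tgl (hG : Grid f δ w h s vR vL hU hD) (hR : RR w h vR vL hU hD ⊆ R) :
    ∀ n ≤ h, TGL f δ R (lsL vR vL 0 n ++ lsB hU hD w 0 ++ lsR vR vL w n ++ lsT hU hD w n) := by
  intro n
  induction n with
  | zero =>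
    intro _
    simp only [lsL_zero, lsR_zero, List.nil_append, List.append_nil]
    have key : ∀ m, TGL f δ R (lsB hU hD m 0 ++ lsT hU hD m 0) := by
      intro m
      induction m with
      | zero => exact .nil
      | succ m ih =>
        rw [lsB_succ, lsT_succ]
        have h1 := TGL.insert (x := lsB hU hD m 0) (y := lsT hU hD m 0) ih
          (TGL.cons (l := []) (l' := []) (Jn.refl_h (f := f) (δ := δ) (R := R) (hU := hU) (hD := hD) m 0) .nil .nil)
        simpa using h1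
    exact key w
  | succ n ih =>
    intro hn
    have h1 := ih (by omega)
    have h2 := Grid.trow hG hR (j := n) (by omega) w le_rfl
    have h3 := h2.rot1'
    have h4 : TGL f δ R (lsB hU hD w n ++ (pR vR vL w n :: lsT hU hD w (n + 1) ++
        [(pL vR vL 0 n).sh 4])) := by simpa using h3
    have h5 : TGL f δ R ((lsL vR vL 0 n ++ lsB hU hD w 0 ++ lsR vR vL w n) ++ lsT hU hD w n ++ []) := by
      simpa using h1
    have g : List.Forall₂ Glu (lsT hU hD w n).reverse (lsB hU hD w n) := by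
      unfold lsT lsB
      rw [List.reverse_reverse, List.forall₂_map_left_iff, List.forall₂_map_right_iff,
        List.forall₂_same]
      exact fun i _ => glu_h i n
    have h6 := h5.joinR h4 g
    have h7 : TGL f δ R ((lsL vR vL 0 n ++ lsB hU hD w 0 ++ lsR vR vL w n ++ pR vR vL w n ::
      lsT hU hD w (n + 1)) ++ [(pL vR vL 0 n).sh 4]) := by simpa using h6
    have h8 := h7.rot1
    rw [Port.sh_sh, add_neg_cancel, Port.sh_zero] at h8
    rw [lsL_succ, lsR_succ]
    simpa using h8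

end Pool.Agent.H83.W
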