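import Mathlib
import Pool.Agent.H83.W.TGR
import Pool.Agent.H83.W.TG

set_option autoImplicit false
open Finset

/-! # A rectangle with two legs

`nshape` : a rectangle of `w = wl + n + wr` columns and `h` rows, a left leg below the columns `i < wl`, a right
leg below the columns `wl + n ≤ i`. `ushape` : the legs are above the rectangle. `nports`, `uports` : blocks of
ports. `nshape_tg`, `ushape_tg` : with numbered ports. -/

namespace Pool.Agent.H83.W

open Pool.Agent.H69.M6b (PR TD tt Tile4 Grid innS outS KS RR fwd sdP)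

variable {D : Type*} {f : D → D} {δ : D → ℤ} {R : Set D} {h el er wl n wr w j : ℕ}
  {s s1 s2 : ℕ → ℕ → Bool} {vR vL hU hD vR1 vL1 hU1 hD1 vR2 vL2 hU2 hD2 : ℕ → ℕ → D}

section

variable (hU hD : ℕ → ℕ → D)

/-- bottom sides of the columns `o, …, o + n - 1` -/
def lsB' (o n j : ℕ) : List (Port D) := (List.range n).map (fun i => pB hU hD (o + i) j)

/-- top sides of the columns `o + n - 1, …, o` -/
def lsT' (o n j : ℕ) : List (Port D) := ((List.range n).map (fun i => pT hU hD (o + i) j)).reverse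

end

lemma lsB_add (n n' j : ℕ) : lsB hU hD (n + n') j = lsB hU hD n j ++ lsB' hU hD n n' j := by
  unfold lsB lsB'
  rw [List.range_add, List.map_append, List.map_map]
  rfl

lemma lsT_add (n n' j : ℕ) : lsT hU hD (n + n') j = lsT' hU hD n n' j ++ lsT hU hD n j := by
  unfold lsT lsT'
  rw [List.range_add, List.map_append, List.map_map, List.reverse_append]
  rfl

/-- **The n-shaped region.** -/
theorem nshape (hG : Grid f δ (wl + n + wr) h s vR vL hU hD) (hG1 : Grid f δ wl el s1 vR1 vL1 hU1 hD1)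
    (hG2 : Grid f δ wr er s2 vR2 vL2 hU2 hD2)
    (hR : RR (wl + n + wr) h vR vL hU hD ⊆ R) (hR1 : RR wl el vR1 vL1 hU1 hD1 ⊆ R)
    (hR2 : RR wr er vR2 vL2 hU2 hD2 ⊆ R)
    (c1 : ∀ i < wl, hU1 i el = hU i 0 ∧ hD1 i el = hD i 0)
    (c2 : ∀ i < wr, hU2 i er = hU (wl + n + i) 0 ∧ hD2 i er = hD (wl + n + i) 0) :
    TGL f δ R (lsL vR vL 0 h ++ lsL vR1 vL1 0 el ++ lsB hU1 hD1 wl 0 ++ lsR vR1 vL1 wl el ++
      lsB' hU hD wl n 0 ++ lsL vR2 vL2 0 er ++ lsB hU2 hD2 wr 0 ++ lsR vR2 vL2 wr er ++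
      lsR vR vL (wl + n + wr) h ++ lsT hU hD (wl + n + wr) h) := by
  have t0 := Grid.tgl hG hR h le_rfl
  have t1 := Grid.tgl hG1 hR1 el le_rfl
  have t2 := (Grid.tgl hG2 hR2 er le_rfl).rot'
  rw [lsB_add, lsB_add] at t0
  have g1 : List.Forall₂ Glu (lsT hU1 hD1 wl el).reverse (lsB hU hD wl 0) := by
    unfold lsT lsB
    rw [List.reverse_reverse, List.forall₂_map_left_iff, List.forall₂_map_right_iff, List.forall₂_same]
    intro i hi
    obtain ⟨e1, e2⟩ := c1 i (List.mem_range.1 hi)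
    exact ⟨e1, e2.symm, rfl⟩
  have g2 : List.Forall₂ Glu (lsB' hU hD (wl + n) wr 0).reverse
      ((lsT hU2 hD2 wr er).map (Port.sh (-4))) := by
    unfold lsT lsB'
    rw [List.map_reverse, List.forall₂_reverse_iff, List.map_map, List.forall₂_map_left_iff,
      List.forall₂_map_right_iff, List.forall₂_same]
    intro i hi
    obtain ⟨e1, e2⟩ := c2 i (List.mem_range.1 hi)
    exact ⟨e2.symm, e1, rfl⟩
  have t3 : TGL f δ R (lsL vR vL 0 h ++ lsB hU hD wl 0 ++ (lsB' hU hD wl n 0 ++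
      lsB' hU hD (wl + n) wr 0 ++ lsR vR vL (wl + n + wr) h ++ lsT hU hD (wl + n + wr) h)) := by
    simpa using t0
  have t4 := t3.joinL (z := lsL vR1 vL1 0 el ++ lsB hU1 hD1 wl 0 ++ lsR vR1 vL1 wl el) t1 g1
  have t5 : TGL f δ R ((lsL vR vL 0 h ++ (lsL vR1 vL1 0 el ++ lsB hU1 hD1 wl 0 ++ lsR vR1 vL1 wl el) ++
      lsB' hU hD wl n 0) ++ lsB' hU hD (wl + n) wr 0 ++ (lsR vR vL (wl + n + wr) h ++
      lsT hU hD (wl + n + wr) h)) := by
    simpa using t4
  have t6 := t5.joinR (z := lsL vR2 vL2 0 er ++ lsB hU2 hD2 wr 0 ++ lsR vR2 vL2 wr er) t2 g2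
  simpa using t6

/-- **The u-shaped region.** -/
theorem ushape (hG : Grid f δ (wl + n + wr) h s vR vL hU hD) (hG1 : Grid f δ wl el s1 vR1 vL1 hU1 hD1)
    (hG2 : Grid f δ wr er s2 vR2 vL2 hU2 hD2)
    (hR : RR (wl + n + wr) h vR vL hU hD ⊆ R) (hR1 : RR wl el vR1 vL1 hU1 hD1 ⊆ R)
    (hR2 : RR wr er vR2 vL2 hU2 hD2 ⊆ R)
    (c1 : ∀ i < wl, hU1 i 0 = hU i h ∧ hD1 i 0 = hD i h)
    (c2 : ∀ i < wr, hU2 i 0 = hU (wl + n + i) h ∧ hD2 i 0 = hD (wl + n + i) h) :
    TGL f δ R (lsL vR1 vL1 0 el ++ lsL vR vL 0 h ++ lsB hU hD (wl + n + wr) 0 ++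
      lsR vR vL (wl + n + wr) h ++ lsR vR2 vL2 wr er ++ lsT hU2 hD2 wr er ++
      (lsL vR2 vL2 0 er).map (Port.sh 4) ++ lsT' hU hD wl n h ++ lsR vR1 vL1 wl el ++
      lsT hU1 hD1 wl el) := by
  have t0 := Grid.tgl hG hR h le_rfl
  have t1 : TGL f δ R (lsL vR1 vL1 0 el ++ (lsB hU1 hD1 wl 0 ++ lsR vR1 vL1 wl el ++
      lsT hU1 hD1 wl el)) := by
    have := Grid.tgl hG1 hR1 el le_rfl
    simpa using this
  have t2 : TGL f δ R (lsL vR2 vL2 0 er ++ (lsB hU2 hD2 wr 0 ++ lsR vR2 vL2 wr er ++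
      lsT hU2 hD2 wr er)) := by
    have := Grid.tgl hG2 hR2 er le_rfl
    simpa using this
  have r1 := t1.rot
  have r2 := t2.rot
  rw [lsT_add, lsT_add] at t0
  have g1 : List.Forall₂ Glu (lsT hU hD wl h).reverse (lsB hU1 hD1 wl 0) := by
    unfold lsT lsB
    rw [List.reverse_reverse, List.forall₂_map_left_iff, List.forall₂_map_right_iff, List.forall₂_same]
    intro i hi
    obtain ⟨e1, e2⟩ := c1 i (List.mem_range.1 hi)
    exact ⟨e1.symm, e2, rfl⟩
  have g2 : List.Forall₂ Glu (lsT' hU hD (wl + n) wr h).reverse (lsB hU2 hD2 wr 0) := by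
    unfold lsT' lsB
    rw [List.reverse_reverse, List.forall₂_map_left_iff, List.forall₂_map_right_iff, List.forall₂_same]
    intro i hi
    obtain ⟨e1, e2⟩ := c2 i (List.mem_range.1 hi)
    exact ⟨e1.symm, e2, rfl⟩
  have t3 : TGL f δ R ((lsL vR vL 0 h ++ lsB hU hD (wl + n + wr) 0 ++ lsR vR vL (wl + n + wr) h) ++
      lsT' hU hD (wl + n) wr h ++ (lsT' hU hD wl n h ++ lsT hU hD wl h)) := by
    simpa using t0
  have t4 := t3.joinR (q := lsB hU2 hD2 wr 0) (z := lsR vR2 vL2 wr er ++ lsT hU2 hD2 wr er ++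
    (lsL vR2 vL2 0 er).map (Port.sh 4)) (by simpa using r2) g2
  have t5 : TGL f δ R ((lsL vR vL 0 h ++ lsB hU hD (wl + n + wr) 0 ++ lsR vR vL (wl + n + wr) h ++
      (lsR vR2 vL2 wr er ++ lsT hU2 hD2 wr er ++ (lsL vR2 vL2 0 er).map (Port.sh 4)) ++
      lsT' hU hD wl n h) ++ lsT hU hD wl h ++ []) := by
    simpa using t4
  have t6 := t5.joinR (q := lsB hU1 hD1 wl 0) (z := lsR vR1 vL1 wl el ++ lsT hU1 hD1 wl el ++
    (lsL vR1 vL1 0 el).map (Port.sh 4)) (by simpa using r1) g1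
  have t7 : TGL f δ R ((lsL vR vL 0 h ++ lsB hU hD (wl + n + wr) 0 ++ lsR vR vL (wl + n + wr) h ++
      lsR vR2 vL2 wr er ++ lsT hU2 hD2 wr er ++ (lsL vR2 vL2 0 er).map (Port.sh 4) ++
      lsT' hU hD wl n h ++ lsR vR1 vL1 wl el ++ lsT hU1 hD1 wl el) ++
      (lsL vR1 vL1 0 el).map (Port.sh 4)) := by
    simpa using t6
  have t8 := t7.rot'
  have e : ((lsL vR1 vL1 0 el).map (Port.sh 4)).map (Port.sh (-4)) = lsL vR1 vL1 0 el := by
    rw [List.map_map]
    conv_rhs => rw [← List.map_id (lsL vR1 vL1 0 el)]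
    apply List.map_congr_left
    intro a _
    simp only [Function.comp, Port.sh, id, add_neg_cancel_right]
  rw [e] at t8
  simpa using t8

/-! ### Numbered ports -/

section

variable (vR vL hU hD : ℕ → ℕ → D)

/-- block of left sides, from top to bottom -/
def bkL (i h : ℕ) : ℕ × (ℕ → Port D) := (h, fun k => pL vR vL i (h - 1 - k))

/-- block of right sides, from bottom to top -/
def bkR (i h : ℕ) : ℕ × (ℕ → Port D) := (h, fun k => pR vR vL i k)

/-- block of bottom sides of the columns `o, …, o + n - 1` -/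
def bkB (o n j : ℕ) : ℕ × (ℕ → Port D) := (n, fun k => pB hU hD (o + k) j)

/-- block of top sides of the columns `o + n - 1, …, o` -/
def bkT (o n j : ℕ) : ℕ × (ℕ → Port D) := (n, fun k => pT hU hD (o + (n - 1 - k)) j)

end

lemma map_range_reverse {α : Type*} (g : ℕ → α) (n : ℕ) :
    ((List.range n).map g).reverse = (List.range n).map (fun k => g (n - 1 - k)) := by
  apply List.ext_getElem
  · simp
  · intro k h1 h2
    simp only [List.getElem_reverse, List.getElem_map, List.getElem_range, List.length_map,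
      List.length_range]

lemma flt_L (i h : ℕ) (L : List (ℕ × (ℕ → Port D))) :
    flt (bkL vR vL i h :: L) = lsL vR vL i h ++ flt L := by
  unfold bkL lsL
  rw [map_range_reverse]
  rfl

lemma flt_R (i h : ℕ) (L : List (ℕ × (ℕ → Port D))) :
    flt (bkR vR vL i h :: L) = lsR vR vL i h ++ flt L := rfl

lemma flt_B' (o n j : ℕ) (L : List (ℕ × (ℕ → Port D))) :
    flt (bkB hU hD o n j :: L) = lsB' hU hD o n j ++ flt L := rfl

lemma flt_B (n j : ℕ) (L : List (ℕ × (ℕ → Port D))) :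
    flt (bkB hU hD 0 n j :: L) = lsB hU hD n j ++ flt L := by
  rw [flt_B']
  unfold lsB' lsB
  simp only [zero_add]

lemma flt_T' (o n j : ℕ) (L : List (ℕ × (ℕ → Port D))) :
    flt (bkT hU hD o n j :: L) = lsT' hU hD o n j ++ flt L := by
  unfold bkT lsT'
  rw [map_range_reverse]
  rfl

lemma flt_T (n j : ℕ) (L : List (ℕ × (ℕ → Port D))) :
    flt (bkT hU hD 0 n j :: L) = lsT hU hD n j ++ flt L := by
  rw [flt_T']
  unfold lsT' lsT
  simp only [zero_add]

section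

variable (vR vL hU hD vR1 vL1 hU1 hD1 vR2 vL2 hU2 hD2 : ℕ → ℕ → D) (h el er wl n wr : ℕ)

/-- **Ports of the n-shaped region**: left side of the rectangle and of the left leg, bottom and right side of
the left leg, bottom of the rectangle between the legs, left side and bottom of the right leg, right side of
the right leg and of the rectangle, top. -/
def nports : List (ℕ × (ℕ → Port D)) :=
  [bkL vR vL 0 h, bkL vR1 vL1 0 el, bkB hU1 hD1 0 wl 0, bkR vR1 vL1 wl el, bkB hU hD wl n 0,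
    bkL vR2 vL2 0 er, bkB hU2 hD2 0 wr 0, bkR vR2 vL2 wr er, bkR vR vL (wl + n + wr) h,
    bkT hU hD 0 (wl + n + wr) h]

/-- the block of the left side of the right leg of the u-shaped region, unrolled direction `4` -/
def bkL4 (vR vL : ℕ → ℕ → D) (i h : ℕ) : ℕ × (ℕ → Port D) :=
  (h, fun k => (pL vR vL i (h - 1 - k)).sh 4)

/-- **Ports of the u-shaped region**: left side of the left leg and of the rectangle, bottom, right side of the
rectangle and of the right leg, top and left side of the right leg, top of the rectangle between the legs, right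
side and top of the left leg. -/
def uports : List (ℕ × (ℕ → Port D)) :=
  [bkL vR1 vL1 0 el, bkL vR vL 0 h, bkB hU hD 0 (wl + n + wr) 0, bkR vR vL (wl + n + wr) h,
    bkR vR2 vL2 wr er, bkT hU2 hD2 0 wr er, bkL4 vR2 vL2 0 er, bkT hU hD wl n h,
    bkR vR1 vL1 wl el, bkT hU1 hD1 0 wl el]

lemma bln_n : bln (nports vR vL hU hD vR1 vL1 hU1 hD1 vR2 vL2 hU2 hD2 h el er wl n wr) =
    2 * (h + (wl + n + wr)) + 2 * el + 2 * er := by
  unfold nports bkL bkB bkR bkT
  simp only [bln]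
  ring

lemma bln_u : bln (uports vR vL hU hD vR1 vL1 hU1 hD1 vR2 vL2 hU2 hD2 h el er wl n wr) =
    2 * (h + (wl + n + wr)) + 2 * el + 2 * er := by
  unfold uports bkL bkL4 bkB bkR bkT
  simp only [bln]
  ring

end

lemma flt_L4 (i h : ℕ) (L : List (ℕ × (ℕ → Port D))) :
    flt (bkL4 vR vL i h :: L) = (lsL vR vL i h).map (Port.sh 4) ++ flt L := by
  unfold bkL4 lsL
  rw [map_range_reverse, List.map_map]
  rfl

/-- **The n-shaped region, numbered ports.** -/
theorem nshape_tg (e : Port D) (hG : Grid f δ (wl + n + wr) h s vR vL hU hD)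
    (hG1 : Grid f δ wl el s1 vR1 vL1 hU1 hD1) (hG2 : Grid f δ wr er s2 vR2 vL2 hU2 hD2)
    (hR : RR (wl + n + wr) h vR vL hU hD ⊆ R) (hR1 : RR wl el vR1 vL1 hU1 hD1 ⊆ R)
    (hR2 : RR wr er vR2 vL2 hU2 hD2 ⊆ R)
    (c1 : ∀ i < wl, hU1 i el = hU i 0 ∧ hD1 i el = hD i 0)
    (c2 : ∀ i < wr, hU2 i er = hU (wl + n + i) 0 ∧ hD2 i er = hD (wl + n + i) 0) :
    ∃ M, TG f δ R (2 * (h + (wl + n + wr)) + 2 * el + 2 * er)
      (fun k => (blk e (nports vR vL hU hD vR1 vL1 hU1 hD1 vR2 vL2 hU2 hD2 h el er wl n wr) k).inn)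
      (fun k => (blk e (nports vR vL hU hD vR1 vL1 hU1 hD1 vR2 vL2 hU2 hD2 h el er wl n wr) k).out)
      (fun k => (blk e (nports vR vL hU hD vR1 vL1 hU1 hD1 vR2 vL2 hU2 hD2 h el er wl n wr) k).th) M := by
  have h1 := nshape hG hG1 hG2 hR hR1 hR2 c1 c2
  rw [← bln_n vR vL hU hD vR1 vL1 hU1 hD1 vR2 vL2 hU2 hD2 h el er wl n wr]
  refine tg_blk e ?_
  unfold nports
  rw [flt_L, flt_L, flt_B, flt_R, flt_B', flt_L, flt_B, flt_R, flt_R, flt_T]
  simpa [flt] using h1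

/-- **The u-shaped region, numbered ports.** -/
theorem ushape_tg (e : Port D) (hG : Grid f δ (wl + n + wr) h s vR vL hU hD)
    (hG1 : Grid f δ wl el s1 vR1 vL1 hU1 hD1) (hG2 : Grid f δ wr er s2 vR2 vL2 hU2 hD2)
    (hR : RR (wl + n + wr) h vR vL hU hD ⊆ R) (hR1 : RR wl el vR1 vL1 hU1 hD1 ⊆ R)
    (hR2 : RR wr er vR2 vL2 hU2 hD2 ⊆ R)
    (c1 : ∀ i < wl, hU1 i 0 = hU i h ∧ hD1 i 0 = hD i h)
    (c2 : ∀ i < wr, hU2 i 0 = hU (wl + n + i) h ∧ hD2 i 0 = hD (wl + n + i) h) :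
    ∃ M, TG f δ R (2 * (h + (wl + n + wr)) + 2 * el + 2 * er)
      (fun k => (blk e (uports vR vL hU hD vR1 vL1 hU1 hD1 vR2 vL2 hU2 hD2 h el er wl n wr) k).inn)
      (fun k => (blk e (uports vR vL hU hD vR1 vL1 hU1 hD1 vR2 vL2 hU2 hD2 h el er wl n wr) k).out)
      (fun k => (blk e (uports vR vL hU hD vR1 vL1 hU1 hD1 vR2 vL2 hU2 hD2 h el er wl n wr) k).th) M := by
  have h1 := ushape hG hG1 hG2 hR hR1 hR2 c1 c2
  rw [← bln_u vR vL hU hD vR1 vL1 hU1 hD1 vR2 vL2 hU2 hD2 h el er wl n wr]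
  refine tg_blk e ?_
  unfold uports
  rw [flt_L, flt_L, flt_B, flt_R, flt_R, flt_T, flt_L4, flt_T', flt_R, flt_T]
  simpa [flt] using h1

end Pool.Agent.H83.W
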