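import Mathlib
import Pool.Agent.H40.W.StrU
import Pool.Agent.H30.Sp.Ring
import Pool.Agent.H83.W.TGN

set_option autoImplicit false
open Finset

/-! # Ports in coordinates, ports which are joined to a neighbour

`ZP xs z` : the port at the side `z.2` of the tile `z.1`, the column `xs` is passed straight (`sf L xs`).
`Adj xs z z'` : `z'` is the next port on the same side, counterclockwise. `ring_nb` : a port whose tile has
the colour of its two neighbours is joined to a neighbour. `exc_le` : at most `2 * #Ch + 4` ports of a block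
are joined to ports outside of the block, `Ch` : corners and colour changes of the ring outside of the block.
-/

namespace Pool.Agent.H83.W

open Pool.Agent.H75.Perc Pool.Agent.H75.TwoArm Pool.Agent.Q1 Pool.Agent.H81.G1
open Pool.Agent.H30.Mid
open Pool.Agent.H40.W (cs sf cs_W cs_E cs_ne cs_N cs_S rx rx_lt rx_ge rx_ne cs_right cs_left vRz vLz
  hUz hDz gridZ)
open Pool.Agent.H69.M6b (lbt lbt_inj lbt_odd pr0 PR TD tt Tile4 Grid sdP innS outS KS RR fwd)

/-- direction of the outward normal -/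
def thd : Dir → ℤ
  | .W => 0 | .S => 1 | .E => 2 | .N => 3

/-- the port at the side `z` -/
def ZP (xs : ℤ) (z : (ℤ × ℤ) × Dir) : Port ((ℤ × ℤ) × Dir) := ⟨z, cs xs (UW z), thd z.2⟩

/-- step to the next tile of the ring -/
def stp : Dir → ℤ × ℤ
  | .W => (0, -1) | .S => (1, 0) | .E => (0, 1) | .N => (-1, 0)

/-- state which joins a port to the next tile of the ring -/
def nxs : Dir → Bool
  | .W => true | .S => false | .E => true | .N => false

/-- the end of the next tile of the ring at the common side -/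
def opd : Dir → Dir
  | .W => .N | .S => .W | .E => .S | .N => .E

/-- `z'` is the next port on the same side -/
structure Adj (xs : ℤ) (z z' : (ℤ × ℤ) × Dir) : Prop where
  dir : z'.2 = z.2
  x : z'.1.1 = z.1.1 + (stp z.2).1
  y : z'.1.2 = z.1.2 + (stp z.2).2
  ne : z.1.1 ≠ xs
  ne' : z'.1.1 ≠ xs

variable {L : Finset (ℤ × ℤ)} {xs : ℤ} {z z' : (ℤ × ℤ) × Dir}

/-- leaving the region is injective -/
lemma out_inj (h : z.1.1 ≠ xs) (h' : z'.1.1 ≠ xs) (e : cs xs (UW z) = cs xs (UW z')) : z = z' := by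
  obtain ⟨⟨x, y⟩, d⟩ := z
  obtain ⟨⟨x', y'⟩, d'⟩ := z'
  simp only at h h'
  unfold cs UW at e
  cases d <;> cases d' <;> simp only [and_true, and_false, if_false, reduceCtorEq] at e <;>
    (try split_ifs at e) <;> simp only [Prod.mk.injEq, reduceCtorEq, and_false, and_true] at e ⊢ <;>
    omega

/-- the first step from a port to the next port -/
lemma dead1 (h : Adj xs z z') (hs : us L z.1 = nxs z.2) : sf L xs z = (z'.1, opd z.2) := by
  obtain ⟨⟨x, y⟩, d⟩ := z
  obtain ⟨⟨x', y'⟩, d'⟩ := z'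
  obtain ⟨h1, h2, h3, h4, h5⟩ := h
  simp only at h1 h2 h3 h4 h5 hs
  unfold sf uf
  simp only [hs]
  subst h2 h3
  cases d <;> simp only [nxs, Dir.mate, UW, stp, opd] at *
  · rw [cs_N]
    refine Prod.ext (Prod.ext ?_ ?_) rfl <;> simp only <;> ring
  · rw [cs_ne (by simp only; omega)]
    refine Prod.ext (Prod.ext ?_ ?_) rfl <;> simp only <;> ring
  · rw [cs_S]
    refine Prod.ext (Prod.ext ?_ ?_) rfl <;> simp only <;> ring
  · rw [cs_ne (by simp only; omega)]
    refine Prod.ext (Prod.ext ?_ ?_) rfl <;> simp only <;> ring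

/-- the second step -/
lemma dead2 (h : Adj xs z z') (hs : us L z'.1 = !nxs z.2) :
    sf L xs (z'.1, opd z.2) = cs xs (UW z') := by
  obtain ⟨⟨x, y⟩, d⟩ := z
  obtain ⟨⟨x', y'⟩, d'⟩ := z'
  obtain ⟨h1, h2, h3, h4, h5⟩ := h
  simp only at h1 h2 h3 h4 h5 hs
  unfold sf uf
  simp only [hs]
  subst h1
  cases d' <;> simp only [nxs, Dir.mate, opd, Bool.not_true, Bool.not_false]

/-- neighbours of one colour have opposite states -/
lemma us_adj (h : Adj xs z z') (hc : lbt z.1.1 z.1.2 ∈ L ↔ lbt z'.1.1 z'.1.2 ∈ L) :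
    us L z'.1 = !us L z.1 := by
  obtain ⟨⟨x, y⟩, d⟩ := z
  obtain ⟨⟨x', y'⟩, d'⟩ := z'
  obtain ⟨h1, h2, h3, h4, h5⟩ := h
  refine Pool.Agent.H30.Sp.us_next (x := x) (y := y) (x' := x') (y' := y') ?_ hc
  simp only at h2 h3
  cases d <;> simp only [stp] at h2 h3 <;> omega

section

variable {R : Set ((ℤ × ℤ) × Dir)} {m : ℕ} {Z : ℕ → (ℤ × ℤ) × Dir} {th : ℕ → ℤ} {M : ℕ → ℕ}
  (T : TG (sf L xs) (ud L) R m Z (fun k => cs xs (UW (Z k))) th M)
  (hR : ∀ k < m, ∀ d, ((Z k).1, d) ∈ R) (ho : ∀ k < m, cs xs (UW (Z k)) ∉ R)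
  (hx : ∀ k < m, (Z k).1.1 ≠ xs) (hi : ∀ k < m, ∀ l < m, Z k = Z l → k = l)

include T hR ho hx hi

/-- two neighbouring ports which are joined -/
lemma dead {k : ℕ} (hk : k + 1 < m) (ha : Adj xs (Z k) (Z (k + 1))) (h1 : us L (Z k).1 = nxs (Z k).2)
    (h2 : us L (Z (k + 1)).1 = !nxs (Z k).2) : M k = k + 1 := by
  refine T.of_path ho (fun k hk l hl e => hi k hk l hl (out_inj (hx k hk) (hx l hl) e)) (by omega) hk
    (u := ud L (Z k) + ud L ((Z (k + 1)).1, opd (Z k).2)) ?_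
  have e0 : Z k = ((Z k).1, (Z k).2) := rfl
  refine (PR.step ?_ (dead1 ha h1) rfl).trans (PR.step ?_ (dead2 ha h2) rfl)
  · rw [e0]; exact hR k (by omega) _
  · exact hR (k + 1) hk _

/-- **A port whose tile has the same colour as its neighbours is joined to a neighbour.** -/
theorem ring_nb {k : ℕ} (h0 : 1 ≤ k) (hk : k + 1 < m) (a1 : Adj xs (Z (k - 1)) (Z k))
    (a2 : Adj xs (Z k) (Z (k + 1)))
    (c1 : lbt (Z (k - 1)).1.1 (Z (k - 1)).1.2 ∈ L ↔ lbt (Z k).1.1 (Z k).1.2 ∈ L)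
    (c2 : lbt (Z k).1.1 (Z k).1.2 ∈ L ↔ lbt (Z (k + 1)).1.1 (Z (k + 1)).1.2 ∈ L) :
    M k = k + 1 ∨ M (k - 1) = k := by
  have u1 := us_adj a1 c1
  have u2 := us_adj a2 c2
  have e : k - 1 + 1 = k := by omega
  by_cases h : us L (Z k).1 = nxs (Z k).2
  · left
    exact dead T hR ho hx hi hk a2 h (by rw [u2, h])
  · right
    have h1 : us L (Z k).1 = !nxs (Z k).2 := by
      revert h; cases us L (Z k).1 <;> cases nxs (Z k).2 <;> simp
    have h2 : us L (Z (k - 1)).1 = nxs (Z (k - 1)).2 := by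
      rw [h1] at u1
      rw [← a1.dir]
      revert u1; cases us L (Z (k - 1)).1 <;> cases nxs (Z k).2 <;> simp
    have h3 := dead T hR ho hx hi (k := k - 1) (by omega) (by rw [e]; exact a1) h2
      (by rw [e, h1, a1.dir])
    rw [h3, e]

/-- **Number of the ports of a block which are joined to ports outside of the block.** -/
theorem exc_le {p0 N : ℕ} (hp : p0 + N ≤ m) (Ch : Finset ℕ)
    (hcol : ∀ k, k + 1 < m → k ∉ Ch → ¬ (p0 ≤ k ∧ k < p0 + N) → ¬ (p0 ≤ k + 1 ∧ k + 1 < p0 + N) →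
      Adj xs (Z k) (Z (k + 1)) ∧
        (lbt (Z k).1.1 (Z k).1.2 ∈ L ↔ lbt (Z (k + 1)).1.1 (Z (k + 1)).1.2 ∈ L)) :
    ((range N).filter fun c => ¬ (p0 ≤ M (p0 + c) ∧ M (p0 + c) < p0 + N)).card ≤
      2 * Ch.card + 4 := by
  classical
  set live : Finset ℕ := (Ch ∪ Ch.image (· + 1)) ∪ {0, m - 1, p0 - 1, p0 + N} with hlive
  have hcard : live.card ≤ 2 * Ch.card + 4 := by
    rw [hlive]
    refine (card_union_le _ _).trans ?_
    have h1 := card_union_le Ch (Ch.image (· + 1))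
    have h2 : (Ch.image (· + 1)).card ≤ Ch.card := card_image_le
    have h3 : ({0, m - 1, p0 - 1, p0 + N} : Finset ℕ).card ≤ 4 := card_le_four
    omega
  refine le_trans (T.card_exc hp live ?_) hcard
  intro l hl hlv hb
  rw [hlive] at hlv
  simp only [mem_union, mem_insert, mem_singleton, not_or] at hlv
  obtain ⟨⟨l1, l2⟩, l3, l4, l5, l6⟩ := hlv
  have b1 : ¬ (p0 ≤ l - 1 ∧ l - 1 < p0 + N) := by omega
  have b2 : ¬ (p0 ≤ l + 1 ∧ l + 1 < p0 + N) := by omega
  have e : l - 1 + 1 = l := by omega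
  have q1 := hcol (l - 1) (by omega) (fun h5 => l2 (mem_image.2 ⟨l - 1, h5, e⟩)) b1
    (by rw [e]; exact hb)
  have q2 := hcol l (by omega) l1 hb b2
  rw [e] at q1
  rcases ring_nb T hR ho hx hi (k := l) (by omega) (by omega) q1.1 q2.1 q1.2 q2.2 with h | h
  · exact Or.inl ⟨by omega, h, b2⟩
  · exact Or.inr ⟨by omega, h, b1⟩

end

/-! ### The ports of `gridZ` in coordinates -/

section

variable {xl yb C : ℤ} {i j : ℕ}

lemma pL_z : pL (vRz xl yb C) (vLz xl yb C) i j = ZP (xl + C) ((rx xl C i, yb + j), .W) := by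
  unfold pL ZP vRz vLz UW thd
  simp only
  rw [cs_left]

lemma pR_z : pR (vRz xl yb C) (vLz xl yb C) i j = ZP (xl + C) ((rx xl C ((i : ℤ) - 1), yb + j), .E) := by
  unfold pR ZP vRz vLz UW thd
  simp only
  rw [cs_right, sub_add_cancel]

lemma pB_z : pB (hUz xl yb C) (hDz xl yb C) i j = ZP (xl + C) ((rx xl C i, yb + j), .S) := by
  unfold pB ZP hUz hDz UW thd
  simp only
  rw [cs_N]

lemma pT_z : pT (hUz xl yb C) (hDz xl yb C) i j = ZP (xl + C) ((rx xl C i, yb + j - 1), .N) := by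
  unfold pT ZP hUz hDz UW thd
  simp only
  rw [cs_S, sub_add_cancel]

end

/-- numbered ports in coordinates -/
theorem tg_z {f : (ℤ × ℤ) × Dir → (ℤ × ℤ) × Dir} {δ : (ℤ × ℤ) × Dir → ℤ} {R : Set ((ℤ × ℤ) × Dir)}
    (e : (ℤ × ℤ) × Dir) (B : List (ℕ × (ℕ → (ℤ × ℤ) × Dir)))
    (h : TGL f δ R ((flt B).map (ZP xs))) :
    ∃ M, TG f δ R (bln B) (blk e B) (fun k => cs xs (UW (blk e B k))) (fun k => thd (blk e B k).2) M := by
  obtain ⟨M, hM⟩ := h.tg (fun k => ZP xs (blk e B k)) (fun k hk => by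
    rw [List.length_map] at hk
    rw [List.getElem_map, getElem_flt B k hk])
  rw [List.length_map, length_flt] at hM
  exact ⟨M, hM⟩

end Pool.Agent.H83.W
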