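import Mathlib
import Pool.Agent.H83.W.TGZ

set_option autoImplicit false
open Finset

/-! # The n-shaped region in coordinates

Rectangle: columns `[xa, xa + wl + n + 1 + wr)`, rows `(y0, y0 + h]`, the column `xs = xa + C` is passed
straight. Left leg: columns `[xa, xa + wl)`, rows `(y0 - el, y0]`; right leg: the last `wr` columns, rows
`(y0 - er, y0]`. `NB` : tiles. `nb` : ports (8 sides), `nsf` : the matching. `nsf_exc` : number of the ports of
a block of the bottom side between the legs which leave the block. -/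

namespace Pool.Agent.H83.W

open Pool.Agent.H75.Perc Pool.Agent.H75.TwoArm Pool.Agent.Q1 Pool.Agent.H81.G1
open Pool.Agent.H30.Mid
open Pool.Agent.H40.W (cs sf cs_W cs_E cs_ne cs_N cs_S rx rx_lt rx_ge rx_ne cs_right cs_left vRz vLz
  hUz hDz gridZ)
open Pool.Agent.H69.M6b (lbt lbt_inj lbt_odd pr0 PR TD tt Tile4 Grid sdP innS outS KS RR fwd)

section

variable (xa y0 C : ℤ) (h el er wl n wr : ℕ)

/-- tiles of the n-shaped region, without the column `xa + C` -/
def NB (u : ℤ × ℤ) : Prop :=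
  ((xa ≤ u.1 ∧ u.1 < xa + wl + n + 1 + wr ∧ y0 < u.2 ∧ u.2 ≤ y0 + h) ∨
    (xa ≤ u.1 ∧ u.1 < xa + wl ∧ y0 - el < u.2 ∧ u.2 ≤ y0) ∨
    (xa + wl + n + 1 ≤ u.1 ∧ u.1 < xa + wl + n + 1 + wr ∧ y0 - er < u.2 ∧ u.2 ≤ y0)) ∧
  u.1 ≠ xa + C

/-- ports of the n-shaped region -/
def nb : List (ℕ × (ℕ → (ℤ × ℤ) × Dir)) :=
  [(h + el, fun k => ((xa, y0 + h - k), .W)),
    (wl, fun k => ((xa + k, y0 + 1 - el), .S)),
    (el, fun k => ((xa + wl - 1, y0 + 1 - el + k), .E)),
    (n, fun k => ((rx xa C (wl + k), y0 + 1), .S)),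
    (er, fun k => ((xa + wl + n + 1, y0 - k), .W)),
    (wr, fun k => ((xa + wl + n + 1 + k, y0 + 1 - er), .S)),
    (er + h, fun k => ((xa + wl + n + wr, y0 + 1 - er + k), .E)),
    (wl + n + wr, fun k => ((rx xa C (wl + n + wr - 1 - k), y0 + h), .N))]

lemma bln_nb : bln (nb xa y0 C h el er wl n wr) = 2 * (h + (wl + n + wr)) + 2 * el + 2 * er := by
  unfold nb
  simp only [bln]
  ring

end

variable {L : Finset (ℤ × ℤ)} {xa y0 C : ℤ} {h el er wl n wr : ℕ}

lemma map_range_congr {α : Type*} {g g' : ℕ → α} {m : ℕ} (e : ∀ k < m, g k = g' k) :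
    (List.range m).map g = (List.range m).map g' :=
  List.map_congr_left fun k hk => e k (List.mem_range.1 hk)

lemma zp_congr {xs x x' y y' : ℤ} {d : Dir} (h1 : x = x') (h2 : y = y') :
    ZP xs ((x, y), d) = ZP xs ((x', y'), d) := by rw [h1, h2]

/-- the list of the ports in coordinates -/
lemma flt_nb (hC1 : wl < C) (hC2 : C < wl + n) :
    (flt (nb xa y0 C h el er wl n wr)).map (ZP (xa + C)) =
      lsL (vRz xa (y0 + 1) C) (vLz xa (y0 + 1) C) 0 h ++
      lsL (vRz xa (y0 + 1 - el) C) (vLz xa (y0 + 1 - el) C) 0 el ++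
      lsB (hUz xa (y0 + 1 - el) C) (hDz xa (y0 + 1 - el) C) wl 0 ++
      lsR (vRz xa (y0 + 1 - el) C) (vLz xa (y0 + 1 - el) C) wl el ++
      lsB' (hUz xa (y0 + 1) C) (hDz xa (y0 + 1) C) wl n 0 ++
      lsL (vRz (xa + wl + n) (y0 + 1 - er) (C - wl - n)) (vLz (xa + wl + n) (y0 + 1 - er) (C - wl - n)) 0 er ++
      lsB (hUz (xa + wl + n) (y0 + 1 - er) (C - wl - n)) (hDz (xa + wl + n) (y0 + 1 - er) (C - wl - n)) wr 0 ++
      lsR (vRz (xa + wl + n) (y0 + 1 - er) (C - wl - n)) (vLz (xa + wl + n) (y0 + 1 - er) (C - wl - n)) wr er ++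
      lsR (vRz xa (y0 + 1) C) (vLz xa (y0 + 1) C) (wl + n + wr) h ++
      lsT (hUz xa (y0 + 1) C) (hDz xa (y0 + 1) C) (wl + n + wr) h := by
  have e2 : xa + wl + n + (C - wl - n) = xa + C := by ring
  unfold nb lsL lsT
  rw [map_range_reverse, map_range_reverse, map_range_reverse, map_range_reverse]
  unfold lsB lsB' lsR
  simp only [flt, List.map_append, List.map_map, List.append_nil, List.append_assoc]
  rw [List.range_add, List.map_append, List.range_add (n := er) (m := h), List.map_append]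
  simp only [List.map_map, List.append_assoc]
  refine congr (congrArg _ ?_) (congr (congrArg _ ?_) (congr (congrArg _ ?_) (congr (congrArg _ ?_)
    (congr (congrArg _ ?_) (congr (congrArg _ ?_) (congr (congrArg _ ?_) (congr (congrArg _ ?_)
    (congr (congrArg _ ?_) ?_)))))))) <;> refine map_range_congr fun k hk => ?_ <;>
    simp only [Function.comp]
  · rw [pL_z]
    refine zp_congr ?_ ?_
    · rw [rx_lt (by push_cast; omega)]; push_cast; ring
    · omega
  · rw [pL_z]
    refine zp_congr ?_ ?_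
    · rw [rx_lt (by push_cast; omega)]; push_cast; ring
    · omega
  · rw [pB_z]
    refine zp_congr ?_ ?_
    · rw [rx_lt (by omega)]
    · omega
  · rw [pR_z]
    refine zp_congr ?_ ?_
    · rw [rx_lt (by omega)]; ring
    · omega
  · rw [pB_z]
    refine zp_congr ?_ ?_
    · push_cast; rfl
    · omega
  · rw [pL_z, e2]
    refine zp_congr ?_ ?_
    · rw [rx_ge (by push_cast; omega)]; push_cast; ring
    · omega
  · rw [pB_z, e2]
    refine zp_congr ?_ ?_
    · rw [rx_ge (by omega)]; ring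
    · omega
  · rw [pR_z, e2]
    refine zp_congr ?_ ?_
    · rw [rx_ge (by omega)]; ring
    · omega
  · rw [pR_z]
    refine zp_congr ?_ ?_
    · rw [rx_ge (by omega)]; push_cast; ring
    · omega
  · rw [pT_z]
    refine zp_congr ?_ ?_
    · congr 1; omega
    · omega

/-- **The n-shaped region**: noncrossing matching of its ports, the column `xa + C` is passed straight. -/
theorem nsf (L : Finset (ℤ × ℤ)) (e : (ℤ × ℤ) × Dir) (hC1 : wl < C) (hC2 : C < wl + n) :
    ∃ M, TG (sf L (xa + C)) (ud L) {z | NB xa y0 C h el er wl n wr z.1}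
      (2 * (h + (wl + n + wr)) + 2 * el + 2 * er) (blk e (nb xa y0 C h el er wl n wr))
      (fun k => cs (xa + C) (UW (blk e (nb xa y0 C h el er wl n wr) k)))
      (fun k => thd (blk e (nb xa y0 C h el er wl n wr) k).2) M := by
  have e2 : xa + wl + n + (C - wl - n) = xa + C := by ring
  have G := gridZ L xa (y0 + 1) C (wl + n + wr) h
  have G1 := gridZ L xa (y0 + 1 - el) C wl el
  have G2 := gridZ L (xa + wl + n) (y0 + 1 - er) (C - wl - n) wr er
  rw [e2] at G2
  have key := nshape (R := {z | NB xa y0 C h el er wl n wr z.1}) G G1 G2 ?_ ?_ ?_ ?_ ?_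
  · rw [← flt_nb hC1 hC2] at key
    rw [← bln_nb xa y0 C h el er wl n wr]
    exact tg_z e _ key
  · rintro z ⟨i, hi, j, hj, hz⟩
    have b1 := rx_ne xa C (i : ℤ)
    have b2 : xa ≤ rx xa C (i : ℤ) ∧ rx xa C (i : ℤ) < xa + wl + n + 1 + wr := by
      unfold rx; split_ifs <;> omega
    have b3 : rx xa C ((i + 1 : ℕ) - 1 : ℤ) = rx xa C (i : ℤ) := by congr 1; push_cast; ring
    show NB xa y0 C h el er wl n wr z.1
    unfold NB
    rcases hz with rfl | rfl | rfl | rfl
    · unfold hUz; simp only; refine ⟨Or.inl ?_, b1⟩; omega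
    · unfold vRz; simp only; refine ⟨Or.inl ?_, b1⟩; omega
    · unfold vLz; simp only; rw [b3]; refine ⟨Or.inl ?_, b1⟩; omega
    · unfold hDz; simp only; refine ⟨Or.inl ?_, b1⟩; push_cast; omega
  · rintro z ⟨i, hi, j, hj, hz⟩
    have b1 := rx_ne xa C (i : ℤ)
    have b2 : xa ≤ rx xa C (i : ℤ) ∧ rx xa C (i : ℤ) < xa + wl := by
      rw [rx_lt (by omega)]; omega
    have b3 : rx xa C ((i + 1 : ℕ) - 1 : ℤ) = rx xa C (i : ℤ) := by congr 1; push_cast; ring
    show NB xa y0 C h el er wl n wr z.1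
    unfold NB
    rcases hz with rfl | rfl | rfl | rfl
    · unfold hUz; simp only; refine ⟨Or.inr (Or.inl ?_), b1⟩; omega
    · unfold vRz; simp only; refine ⟨Or.inr (Or.inl ?_), b1⟩; omega
    · unfold vLz; simp only; rw [b3]; refine ⟨Or.inr (Or.inl ?_), b1⟩; omega
    · unfold hDz; simp only; refine ⟨Or.inr (Or.inl ?_), b1⟩; push_cast; omega
  · rintro z ⟨i, hi, j, hj, hz⟩
    have b2 : xa + wl + n + 1 ≤ rx (xa + wl + n) (C - wl - n) (i : ℤ) ∧
        rx (xa + wl + n) (C - wl - n) (i : ℤ) < xa + wl + n + 1 + wr := by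
      rw [rx_ge (by omega)]; omega
    have b1 : rx (xa + wl + n) (C - wl - n) (i : ℤ) ≠ xa + C := by omega
    have b3 : rx (xa + wl + n) (C - wl - n) ((i + 1 : ℕ) - 1 : ℤ) =
        rx (xa + wl + n) (C - wl - n) (i : ℤ) := by congr 1; push_cast; ring
    show NB xa y0 C h el er wl n wr z.1
    unfold NB
    rcases hz with rfl | rfl | rfl | rfl
    · unfold hUz; simp only; refine ⟨Or.inr (Or.inr ?_), b1⟩; omega
    · unfold vRz; simp only; refine ⟨Or.inr (Or.inr ?_), b1⟩; omega
    · unfold vLz; simp only; rw [b3]; refine ⟨Or.inr (Or.inr ?_), b1⟩; omega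
    · unfold hDz; simp only; refine ⟨Or.inr (Or.inr ?_), b1⟩; push_cast; omega
  · intro i _
    unfold hUz hDz
    constructor
    · refine Prod.ext (Prod.ext rfl ?_) rfl; simp only; push_cast; ring
    · refine Prod.ext (Prod.ext rfl ?_) rfl; simp only; push_cast; ring
  · intro i hi
    have e3 : rx (xa + wl + n) (C - wl - n) (i : ℤ) = rx xa C ((wl + n + i : ℕ) : ℤ) := by
      rw [rx_ge (by omega), rx_ge (by push_cast; omega)]; push_cast; ring
    unfold hUz hDz
    rw [e3]
    constructor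
    · refine Prod.ext (Prod.ext rfl ?_) rfl; simp only; push_cast; ring
    · refine Prod.ext (Prod.ext rfl ?_) rfl; simp only; push_cast; ring

end Pool.Agent.H83.W
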