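import Mathlib
import Pool.Agent.H83.W.TGC

set_option autoImplicit false
open Finset

/-! # The number of the exceptional ports of the n-shaped region

`nsf_exc` : `N` ports of the bottom side between the legs (a row of `N + 1` columns which contains the column
`xa + C`); at most `2 * (number of the colour changes of the outer ring outside of the row) + 20` of them are
joined to other ports. -/

namespace Pool.Agent.H83.W

open Pool.Agent.H75.Perc Pool.Agent.H75.TwoArm Pool.Agent.Q1 Pool.Agent.H81.G1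
open Pool.Agent.H30.Mid
open Pool.Agent.H40.W (cs sf cs_W cs_E cs_ne cs_N cs_S rx rx_lt rx_ge rx_ne cs_right cs_left vRz vLz
  hUz hDz gridZ)
open Pool.Agent.H69.M6b (lbt lbt_inj lbt_odd pr0 PR TD tt Tile4 Grid sdP innS outS KS RR fwd)

variable {L : Finset (ℤ × ℤ)} {xa y0 C : ℤ} {h el er wl n wr i k : ℕ} {e : (ℤ × ℤ) × Dir}

/-! ### Values -/

lemma nb1 (hi : i < h + el) : blk e (nb xa y0 C h el er wl n wr) i = ((xa, y0 + h - i), .W) := by
  unfold nb; rw [blk_lt hi]

lemma nb2 (hi : i < wl) : blk e (nb xa y0 C h el er wl n wr) (h + el + i) =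
    ((xa + i, y0 + 1 - el), .S) := by
  unfold nb; rw [blk_add, blk_lt hi]

lemma nb3 (hi : i < el) : blk e (nb xa y0 C h el er wl n wr) (h + el + (wl + i)) =
    ((xa + wl - 1, y0 + 1 - el + i), .E) := by
  unfold nb; rw [blk_add, blk_add, blk_lt hi]

lemma nb4 (hi : i < n) : blk e (nb xa y0 C h el er wl n wr) (h + el + (wl + (el + i))) =
    ((rx xa C (wl + i), y0 + 1), .S) := by
  unfold nb; rw [blk_add, blk_add, blk_add, blk_lt hi]

lemma nb5 (hi : i < er) : blk e (nb xa y0 C h el er wl n wr) (h + el + (wl + (el + (n + i)))) =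
    ((xa + wl + n + 1, y0 - i), .W) := by
  unfold nb; rw [blk_add, blk_add, blk_add, blk_add, blk_lt hi]

lemma nb6 (hi : i < wr) : blk e (nb xa y0 C h el er wl n wr) (h + el + (wl + (el + (n + (er + i))))) =
    ((xa + wl + n + 1 + i, y0 + 1 - er), .S) := by
  unfold nb; rw [blk_add, blk_add, blk_add, blk_add, blk_add, blk_lt hi]

lemma nb7 (hi : i < er + h) :
    blk e (nb xa y0 C h el er wl n wr) (h + el + (wl + (el + (n + (er + (wr + i)))))) =
    ((xa + wl + n + wr, y0 + 1 - er + i), .E) := by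
  unfold nb; rw [blk_add, blk_add, blk_add, blk_add, blk_add, blk_add, blk_lt hi]

lemma nb8 (hi : i < wl + n + wr) :
    blk e (nb xa y0 C h el er wl n wr) (h + el + (wl + (el + (n + (er + (wr + (er + h + i))))))) =
    ((rx xa C (wl + n + wr - 1 - i), y0 + h), .N) := by
  unfold nb; rw [blk_add, blk_add, blk_add, blk_add, blk_add, blk_add, blk_add, blk_lt hi]

/-- the sides -/
lemma nb_cases (hk : k < 2 * (h + (wl + n + wr)) + 2 * el + 2 * er) :
    (∃ i < h + el, k = i) ∨ (∃ i < wl, k = h + el + i) ∨ (∃ i < el, k = h + el + (wl + i)) ∨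
    (∃ i < n, k = h + el + (wl + (el + i))) ∨ (∃ i < er, k = h + el + (wl + (el + (n + i)))) ∨
    (∃ i < wr, k = h + el + (wl + (el + (n + (er + i))))) ∨
    (∃ i < er + h, k = h + el + (wl + (el + (n + (er + (wr + i)))))) ∨
    (∃ i < wl + n + wr, k = h + el + (wl + (el + (n + (er + (wr + (er + h + i))))))) := by
  by_cases c1 : k < h + el
  · exact Or.inl ⟨k, c1, rfl⟩
  by_cases c2 : k < h + el + wl
  · exact Or.inr (Or.inl ⟨k - (h + el), by omega, by omega⟩)
  by_cases c3 : k < h + el + wl + el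
  · exact Or.inr (Or.inr (Or.inl ⟨k - (h + el + wl), by omega, by omega⟩))
  by_cases c4 : k < h + el + wl + el + n
  · exact Or.inr (Or.inr (Or.inr (Or.inl ⟨k - (h + el + wl + el), by omega, by omega⟩)))
  by_cases c5 : k < h + el + wl + el + n + er
  · exact Or.inr (Or.inr (Or.inr (Or.inr (Or.inl ⟨k - (h + el + wl + el + n), by omega, by omega⟩))))
  by_cases c6 : k < h + el + wl + el + n + er + wr
  · exact Or.inr (Or.inr (Or.inr (Or.inr (Or.inr (Or.inl
      ⟨k - (h + el + wl + el + n + er), by omega, by omega⟩)))))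
  by_cases c7 : k < h + el + wl + el + n + er + wr + (er + h)
  · exact Or.inr (Or.inr (Or.inr (Or.inr (Or.inr (Or.inr (Or.inl
      ⟨k - (h + el + wl + el + n + er + wr), by omega, by omega⟩))))))
  · exact Or.inr (Or.inr (Or.inr (Or.inr (Or.inr (Or.inr (Or.inr
      ⟨k - (h + el + wl + el + n + er + wr + (er + h)), by omega, by omega⟩))))))

lemma rx_rng {j : ℤ} (_h0 : 0 ≤ j) : xa + j ≤ rx xa C j ∧ rx xa C j ≤ xa + j + 1 ∧ rx xa C j ≠ xa + C := by
  refine ⟨?_, ?_, rx_ne xa C j⟩ <;> (unfold rx; split_ifs <;> omega)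

section

variable (hh : 0 < h) (hl : wl = 0 → el = 0) (hr : wr = 0 → er = 0) (hC1 : wl < C)
  (hC2 : C < wl + n)
include hh hl hr hC1 hC2

/-- the tiles of the ports are in the region, the positions after leaving are outside -/
lemma nb_io (hk : k < 2 * (h + (wl + n + wr)) + 2 * el + 2 * er) :
    NB xa y0 C h el er wl n wr (blk e (nb xa y0 C h el er wl n wr) k).1 ∧
    ¬ NB xa y0 C h el er wl n wr (cs (xa + C) (UW (blk e (nb xa y0 C h el er wl n wr) k))).1 := by
  unfold NB
  rcases nb_cases hk with ⟨i, hi, rfl⟩ | ⟨i, hi, rfl⟩ | ⟨i, hi, rfl⟩ | ⟨i, hi, rfl⟩ | ⟨i, hi, rfl⟩ |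
    ⟨i, hi, rfl⟩ | ⟨i, hi, rfl⟩ | ⟨i, hi, rfl⟩
  · rw [nb1 hi]
    unfold UW
    simp only
    rw [cs_ne (by simp only; omega)]
    simp only
    omega
  · rw [nb2 hi]
    unfold UW
    simp only
    rw [cs_N]
    simp only
    omega
  · rw [nb3 hi]
    unfold UW
    simp only
    rw [cs_ne (by simp only; omega)]
    simp only
    omega
  · rw [nb4 hi]
    unfold UW
    simp only
    rw [cs_N]
    have := rx_rng (xa := xa) (C := C) (j := wl + i) (by omega)
    simp only
    omega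
  · rw [nb5 hi]
    unfold UW
    simp only
    rw [cs_ne (by simp only; omega)]
    simp only
    omega
  · rw [nb6 hi]
    unfold UW
    simp only
    rw [cs_N]
    simp only
    omega
  · rw [nb7 hi]
    unfold UW
    simp only
    rw [cs_ne (by simp only; omega)]
    simp only
    omega
  · rw [nb8 hi]
    unfold UW
    simp only
    rw [cs_S]
    have := rx_rng (xa := xa) (C := C) (j := wl + n + wr - 1 - i) (by omega)
    simp only
    omega

omit hh hl hr in
/-- the ports are different -/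
lemma nb_inj {l : ℕ} (hk : k < 2 * (h + (wl + n + wr)) + 2 * el + 2 * er)
    (hl' : l < 2 * (h + (wl + n + wr)) + 2 * el + 2 * er)
    (he : blk e (nb xa y0 C h el er wl n wr) k = blk e (nb xa y0 C h el er wl n wr) l) : k = l := by
  have inj : ∀ j j' : ℤ, rx xa C j = rx xa C j' → j = j' := by
    intro j j' h
    unfold rx at h
    split_ifs at h <;> omega
  rcases nb_cases hk with ⟨i, hi, rfl⟩ | ⟨i, hi, rfl⟩ | ⟨i, hi, rfl⟩ | ⟨i, hi, rfl⟩ | ⟨i, hi, rfl⟩ |
    ⟨i, hi, rfl⟩ | ⟨i, hi, rfl⟩ | ⟨i, hi, rfl⟩ <;>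
  rcases nb_cases hl' with ⟨i', hi', rfl⟩ | ⟨i', hi', rfl⟩ | ⟨i', hi', rfl⟩ | ⟨i', hi', rfl⟩ |
    ⟨i', hi', rfl⟩ | ⟨i', hi', rfl⟩ | ⟨i', hi', rfl⟩ | ⟨i', hi', rfl⟩ <;>
  (first | rw [nb1 hi] at he | rw [nb2 hi] at he | rw [nb3 hi] at he | rw [nb4 hi] at he |
    rw [nb5 hi] at he | rw [nb6 hi] at he | rw [nb7 hi] at he | rw [nb8 hi] at he) <;>
  (first | rw [nb1 hi'] at he | rw [nb2 hi'] at he | rw [nb3 hi'] at he | rw [nb4 hi'] at he |
    rw [nb5 hi'] at he | rw [nb6 hi'] at he | rw [nb7 hi'] at he | rw [nb8 hi'] at he) <;>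
  simp only [Prod.mk.injEq, reduceCtorEq, and_false, and_true] at he
  · omega
  · omega
  · omega
  · have := rx_rng (xa := xa) (C := C) (j := wl + i') (by omega)
    omega
  · omega
  · omega
  · omega
  · have := rx_rng (xa := xa) (C := C) (j := wl + i) (by omega)
    omega
  · have := inj _ _ he
    omega
  · have := rx_rng (xa := xa) (C := C) (j := wl + i) (by omega)
    omega
  · omega
  · omega
  · omega
  · have := rx_rng (xa := xa) (C := C) (j := wl + i') (by omega)
    omega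
  · omega
  · omega
  · omega
  · have := inj _ _ he
    omega

end

/-- corners and colour changes outside of the row -/
noncomputable def chn (xa y0 C : ℤ) (h el er wl n wr : ℕ) (CL CB1 CR1 CM CL2 CB2 CR CT : Finset ℤ) :
    Finset ℕ :=
  (CL.image (fun y => (y0 + h - 1 - y).toNat) ∪
    CB1.image (fun x => h + el + (x - xa).toNat) ∪
    CR1.image (fun y => h + el + (wl + (y - (y0 + 1 - el)).toNat)) ∪
    CM.image (fun x => h + el + (wl + (el + ((if x < xa + C then x else x - 1) - xa - wl).toNat))) ∪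
    CL2.image (fun y => h + el + (wl + (el + (n + (y0 - 1 - y).toNat)))) ∪
    CB2.image (fun x => h + el + (wl + (el + (n + (er + (x - (xa + wl + n + 1)).toNat))))) ∪
    CR.image (fun y => h + el + (wl + (el + (n + (er + (wr + (y - (y0 + 1 - er)).toNat)))))) ∪
    CT.image (fun x => h + el + (wl + (el + (n + (er + (wr + (er + h + (wl + n + wr - 2 -
      ((if x < xa + C then x else x - 1) - xa)).toNat)))))))) ∪
  {h + el - 1, h + el + wl - 1, h + el + wl + el - 1, h + el + wl + el + n - 1,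
    h + el + wl + el + n + er - 1, h + el + wl + el + n + er + wr - 1,
    h + el + wl + el + n + er + wr + (er + h) - 1,
    h + el + (wl + (el + (n + (er + (wr + (er + h + (wl + n + wr - 1 - C).toNat))))))}

lemma card_chn {CL CB1 CR1 CM CL2 CB2 CR CT : Finset ℤ} :
    (chn xa y0 C h el er wl n wr CL CB1 CR1 CM CL2 CB2 CR CT).card ≤
      CL.card + CB1.card + CR1.card + CM.card + CL2.card + CB2.card + CR.card + CT.card + 8 := by
  classical
  unfold chn
  refine (card_union_le _ _).trans (Nat.add_le_add ?_ ?_)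
  · refine (card_union_le _ _).trans (Nat.add_le_add ?_ card_image_le)
    refine (card_union_le _ _).trans (Nat.add_le_add ?_ card_image_le)
    refine (card_union_le _ _).trans (Nat.add_le_add ?_ card_image_le)
    refine (card_union_le _ _).trans (Nat.add_le_add ?_ card_image_le)
    refine (card_union_le _ _).trans (Nat.add_le_add ?_ card_image_le)
    refine (card_union_le _ _).trans (Nat.add_le_add ?_ card_image_le)
    exact (card_union_le _ _).trans (Nat.add_le_add card_image_le card_image_le)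
  · refine (card_insert_le _ _).trans (Nat.succ_le_succ ?_)
    refine (card_insert_le _ _).trans (Nat.succ_le_succ ?_)
    refine (card_insert_le _ _).trans (Nat.succ_le_succ ?_)
    refine (card_insert_le _ _).trans (Nat.succ_le_succ ?_)
    refine (card_insert_le _ _).trans (Nat.succ_le_succ ?_)
    refine (card_insert_le _ _).trans (Nat.succ_le_succ ?_)
    exact card_le_two

section

variable {CL CB1 CR1 CM CL2 CB2 CR CT : Finset ℤ} {o N : ℕ}
  (hC1 : wl < C) (hC2 : C < wl + n) (ho1 : wl + o ≤ C) (ho2 : C ≤ wl + o + N) (ho3 : o + N ≤ n)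
  (hL : ∀ y, y0 - el < y → y < y0 + h → y ∉ CL → (lbt xa y ∈ L ↔ lbt xa (y + 1) ∈ L))
  (hB1 : ∀ x, xa ≤ x → x + 1 < xa + wl → x ∉ CB1 →
    (lbt x (y0 + 1 - el) ∈ L ↔ lbt (x + 1) (y0 + 1 - el) ∈ L))
  (hR1 : ∀ y, y0 - el < y → y < y0 → y ∉ CR1 →
    (lbt (xa + wl - 1) y ∈ L ↔ lbt (xa + wl - 1) (y + 1) ∈ L))
  (hM : ∀ x, xa + wl ≤ x → x < xa + wl + n → x ∉ CM →
    (x + 1 < xa + wl + o ∨ xa + wl + o + N < x) → (lbt x (y0 + 1) ∈ L ↔ lbt (x + 1) (y0 + 1) ∈ L))
  (hL2 : ∀ y, y0 - er < y → y < y0 → y ∉ CL2 →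
    (lbt (xa + wl + n + 1) y ∈ L ↔ lbt (xa + wl + n + 1) (y + 1) ∈ L))
  (hB2 : ∀ x, xa + wl + n + 1 ≤ x → x < xa + wl + n + wr → x ∉ CB2 →
    (lbt x (y0 + 1 - er) ∈ L ↔ lbt (x + 1) (y0 + 1 - er) ∈ L))
  (hR : ∀ y, y0 - er < y → y < y0 + h → y ∉ CR →
    (lbt (xa + wl + n + wr) y ∈ L ↔ lbt (xa + wl + n + wr) (y + 1) ∈ L))
  (hT : ∀ x, xa ≤ x → x < xa + wl + n + wr → x ∉ CT → x ≠ xa + C → x + 1 ≠ xa + C →
    (lbt x (y0 + h) ∈ L ↔ lbt (x + 1) (y0 + h) ∈ L))

include hC1 hC2 ho1 ho2 ho3 hL hB1 hR1 hM hL2 hB2 hR hT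

/-- neighbouring ports outside of the row -/
lemma nb_adj (hN : 0 < N) (hk : k + 1 < 2 * (h + (wl + n + wr)) + 2 * el + 2 * er)
    (hc : k ∉ chn xa y0 C h el er wl n wr CL CB1 CR1 CM CL2 CB2 CR CT)
    (b1 : ¬ (h + el + (wl + (el + o)) ≤ k ∧ k < h + el + (wl + (el + o)) + N))
    (b2 : ¬ (h + el + (wl + (el + o)) ≤ k + 1 ∧ k + 1 < h + el + (wl + (el + o)) + N)) :
    Adj (xa + C) (blk e (nb xa y0 C h el er wl n wr) k) (blk e (nb xa y0 C h el er wl n wr) (k + 1)) ∧
      (lbt (blk e (nb xa y0 C h el er wl n wr) k).1.1 (blk e (nb xa y0 C h el er wl n wr) k).1.2 ∈ L ↔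
        lbt (blk e (nb xa y0 C h el er wl n wr) (k + 1)).1.1
          (blk e (nb xa y0 C h el er wl n wr) (k + 1)).1.2 ∈ L) := by
  unfold chn at hc
  simp only [mem_union, mem_insert, mem_singleton, not_or] at hc
  obtain ⟨⟨⟨⟨⟨⟨⟨⟨q1, q2⟩, q3⟩, q4⟩, q5⟩, q6⟩, q7⟩, q8⟩, c1, c2, c3, c4, c5, c6, c7, c8⟩ := hc
  rcases nb_cases (h := h) (el := el) (er := er) (wl := wl) (n := n) (wr := wr) (k := k) (by omega)
    with ⟨i, hi, hki⟩ | ⟨i, hi, rfl⟩ | ⟨i, hi, rfl⟩ | ⟨i, hi, rfl⟩ |
    ⟨i, hi, rfl⟩ | ⟨i, hi, rfl⟩ | ⟨i, hi, rfl⟩ | ⟨i, hi, rfl⟩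
  · have hi' : i + 1 < h + el := by omega
    rw [hki, nb1 hi, nb1 hi']
    refine ⟨⟨rfl, ?_, ?_, ?_, ?_⟩, ?_⟩ <;> simp only [stp]
    · ring
    · push_cast; ring
    · omega
    · omega
    · have := hL (y0 + h - 1 - i) (by omega) (by omega)
        (fun h5 => q1 (mem_image.2 ⟨_, h5, by omega⟩))
      rw [show y0 + (h : ℤ) - ((i + 1 : ℕ) : ℤ) = y0 + h - 1 - i by push_cast; ring,
        show y0 + (h : ℤ) - (i : ℤ) = y0 + h - 1 - i + 1 by ring]
      exact this.symm
  · have hi' : i + 1 < wl := by omega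
    rw [show h + el + i + 1 = h + el + (i + 1) by ring, nb2 hi, nb2 hi']
    refine ⟨⟨rfl, ?_, ?_, ?_, ?_⟩, ?_⟩ <;> simp only [stp]
    · push_cast; ring
    · ring
    · omega
    · omega
    · have := hB1 (xa + i) (by omega) (by omega)
        (fun h5 => q2 (mem_image.2 ⟨_, h5, by omega⟩))
      rw [show xa + ((i + 1 : ℕ) : ℤ) = xa + i + 1 by push_cast; ring]
      exact this
  · have hi' : i + 1 < el := by omega
    rw [show h + el + (wl + i) + 1 = h + el + (wl + (i + 1)) by ring, nb3 hi, nb3 hi']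
    refine ⟨⟨rfl, ?_, ?_, ?_, ?_⟩, ?_⟩ <;> simp only [stp]
    · ring
    · push_cast; ring
    · omega
    · omega
    · have := hR1 (y0 + 1 - el + i) (by omega) (by omega)
        (fun h5 => q3 (mem_image.2 ⟨_, h5, by omega⟩))
      rw [show y0 + 1 - (el : ℤ) + ((i + 1 : ℕ) : ℤ) = y0 + 1 - el + i + 1 by push_cast; ring]
      exact this
  · have hi' : i + 1 < n := by omega
    rw [show h + el + (wl + (el + i)) + 1 = h + el + (wl + (el + (i + 1))) by ring, nb4 hi, nb4 hi']
    have e0 : ((wl : ℤ) + ((i + 1 : ℕ) : ℤ)) = wl + i + 1 := by push_cast; ring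
    rw [e0]
    by_cases g : (wl : ℤ) + i + 1 < C
    · rw [rx_lt (by omega : (wl : ℤ) + i < C), rx_lt g]
      refine ⟨⟨rfl, ?_, ?_, ?_, ?_⟩, ?_⟩ <;> simp only [stp]
      · ring
      · ring
      · omega
      · omega
      · have := hM (xa + (wl + i)) (by omega) (by omega)
          (fun h5 => q4 (mem_image.2 ⟨_, h5, by rw [if_pos (by omega)]; omega⟩)) (by omega)
        rw [show xa + ((wl : ℤ) + i + 1) = xa + (wl + i) + 1 by ring]
        exact this
    · have g2 : C ≤ wl + i := by omega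
      rw [rx_ge g2, rx_ge (by omega : C ≤ (wl : ℤ) + i + 1)]
      refine ⟨⟨rfl, ?_, ?_, ?_, ?_⟩, ?_⟩ <;> simp only [stp]
      · ring
      · ring
      · omega
      · omega
      · have := hM (xa + (wl + i) + 1) (by omega) (by omega)
          (fun h5 => q4 (mem_image.2 ⟨_, h5, by rw [if_neg (by omega)]; omega⟩)) (by omega)
        rw [show xa + ((wl : ℤ) + i + 1) + 1 = xa + (wl + i) + 1 + 1 by ring]
        exact this
  · have hi' : i + 1 < er := by omega
    rw [show h + el + (wl + (el + (n + i))) + 1 = h + el + (wl + (el + (n + (i + 1)))) by ring,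
      nb5 hi, nb5 hi']
    refine ⟨⟨rfl, ?_, ?_, ?_, ?_⟩, ?_⟩ <;> simp only [stp]
    · ring
    · push_cast; ring
    · omega
    · omega
    · have := hL2 (y0 - 1 - i) (by omega) (by omega)
        (fun h5 => q5 (mem_image.2 ⟨_, h5, by omega⟩))
      rw [show y0 - ((i + 1 : ℕ) : ℤ) = y0 - 1 - i by push_cast; ring,
        show y0 - (i : ℤ) = y0 - 1 - i + 1 by ring]
      exact this.symm
  · have hi' : i + 1 < wr := by omega
    rw [show h + el + (wl + (el + (n + (er + i)))) + 1 = h + el + (wl + (el + (n + (er + (i + 1)))))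
      by ring, nb6 hi, nb6 hi']
    refine ⟨⟨rfl, ?_, ?_, ?_, ?_⟩, ?_⟩ <;> simp only [stp]
    · push_cast; ring
    · ring
    · omega
    · omega
    · have := hB2 (xa + wl + n + 1 + i) (by omega) (by omega)
        (fun h5 => q6 (mem_image.2 ⟨_, h5, by omega⟩))
      rw [show xa + wl + n + 1 + ((i + 1 : ℕ) : ℤ) = xa + wl + n + 1 + i + 1 by push_cast; ring]
      exact this
  · have hi' : i + 1 < er + h := by omega
    rw [show h + el + (wl + (el + (n + (er + (wr + i))))) + 1 =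
      h + el + (wl + (el + (n + (er + (wr + (i + 1)))))) by ring, nb7 hi, nb7 hi']
    refine ⟨⟨rfl, ?_, ?_, ?_, ?_⟩, ?_⟩ <;> simp only [stp]
    · ring
    · push_cast; ring
    · omega
    · omega
    · have := hR (y0 + 1 - er + i) (by omega) (by omega)
        (fun h5 => q7 (mem_image.2 ⟨_, h5, by omega⟩))
      rw [show y0 + 1 - (er : ℤ) + ((i + 1 : ℕ) : ℤ) = y0 + 1 - er + i + 1 by push_cast; ring]
      exact this
  · have hi' : i + 1 < wl + n + wr := by omega
    rw [show h + el + (wl + (el + (n + (er + (wr + (er + h + i)))))) + 1 =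
      h + el + (wl + (el + (n + (er + (wr + (er + h + (i + 1))))))) by ring, nb8 hi, nb8 hi']
    have e0 : ((wl : ℤ) + n + wr - 1 - ((i + 1 : ℕ) : ℤ)) = wl + n + wr - 2 - i := by push_cast; ring
    rw [e0]
    have g0 : (wl : ℤ) + n + wr - 1 - i ≠ C := by omega
    by_cases g : (wl : ℤ) + n + wr - 1 - i < C
    · rw [rx_lt g, rx_lt (by omega : (wl : ℤ) + n + wr - 2 - i < C)]
      refine ⟨⟨rfl, ?_, ?_, ?_, ?_⟩, ?_⟩ <;> simp only [stp]
      · ring
      · ring
      · omega
      · omega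
      · have := hT (xa + (wl + n + wr - 2 - i)) (by omega) (by omega)
          (fun h5 => q8 (mem_image.2 ⟨_, h5, by rw [if_pos (by omega)]; omega⟩)) (by omega) (by omega)
        rw [show xa + ((wl : ℤ) + n + wr - 1 - i) = xa + (wl + n + wr - 2 - i) + 1 by ring]
        exact this.symm
    · rw [rx_ge (by omega : C ≤ (wl : ℤ) + n + wr - 1 - i),
        rx_ge (by omega : C ≤ (wl : ℤ) + n + wr - 2 - i)]
      refine ⟨⟨rfl, ?_, ?_, ?_, ?_⟩, ?_⟩ <;> simp only [stp]
      · ring
      · ring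
      · omega
      · omega
      · have := hT (xa + (wl + n + wr - 2 - i) + 1) (by omega) (by omega)
          (fun h5 => q8 (mem_image.2 ⟨_, h5, by rw [if_neg (by omega)]; omega⟩)) (by omega) (by omega)
        rw [show xa + ((wl : ℤ) + n + wr - 1 - i) + 1 = xa + (wl + n + wr - 2 - i) + 1 + 1 by ring]
        exact this.symm

/-- **Number of the exceptional ports of the row.** -/
theorem nsf_exc (hh : 0 < h) (hl : wl = 0 → el = 0) (hr : wr = 0 → er = 0) {M : ℕ → ℕ}
    (T : TG (sf L (xa + C)) (ud L) {z | NB xa y0 C h el er wl n wr z.1}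
      (2 * (h + (wl + n + wr)) + 2 * el + 2 * er) (blk e (nb xa y0 C h el er wl n wr))
      (fun k => cs (xa + C) (UW (blk e (nb xa y0 C h el er wl n wr) k)))
      (fun k => thd (blk e (nb xa y0 C h el er wl n wr) k).2) M) :
    ((range N).filter fun c => ¬ (h + el + (wl + (el + o)) ≤ M (h + el + (wl + (el + o)) + c) ∧
      M (h + el + (wl + (el + o)) + c) < h + el + (wl + (el + o)) + N)).card ≤
    2 * (CL.card + CB1.card + CR1.card + CM.card + CL2.card + CB2.card + CR.card + CT.card) + 20 := by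
  rcases Nat.eq_zero_or_pos N with hN | hN
  · subst hN
    simp
  have h1 := exc_le T (fun k hk d => ?_) (fun k hk => ?_) (fun k hk => ?_) (fun k hk l hl' he => ?_)
    (p0 := h + el + (wl + (el + o))) (N := N) (by omega)
    (chn xa y0 C h el er wl n wr CL CB1 CR1 CM CL2 CB2 CR CT)
    (fun k hk hc b1 b2 => nb_adj (e := e) hC1 hC2 ho1 ho2 ho3 hL hB1 hR1 hM hL2 hB2 hR hT hN hk hc b1 b2)
  · refine h1.trans ?_
    have := card_chn (xa := xa) (y0 := y0) (C := C) (h := h) (el := el) (er := er) (wl := wl) (n := n)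
      (wr := wr) (CL := CL) (CB1 := CB1) (CR1 := CR1) (CM := CM) (CL2 := CL2) (CB2 := CB2) (CR := CR)
      (CT := CT)
    omega
  · exact (nb_io (e := e) hh hl hr hC1 hC2 hk).1
  · exact (nb_io (e := e) hh hl hr hC1 hC2 hk).2
  · exact (nb_io (e := e) hh hl hr hC1 hC2 hk).1.2
  · exact nb_inj hC1 hC2 hk hl' he

end

end Pool.Agent.H83.W
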